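import Mathlib

/-!
The choice of the corner: purely linear statements about residues modulo `N`.
-/

namespace H58.QN

/-- the queen of the class on the difference diagonal of the cell `(u, w)` (its row is `I`, modulo
`N`) lies outside the board -/
def DiffFree (N u w I : ℤ) : Prop := (w ≤ u ∧ I < u - w) ∨ (u < w ∧ N - (w - u) ≤ I)

/-- the same for the sum diagonal -/
def SumFree (N u w I : ℤ) : Prop := (u + w < N ∧ u + w < I) ∨ (N ≤ u + w ∧ I ≤ u + w - N)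

lemma eq_of_dvd_sub {N x y : ℤ} (hx0 : 0 ≤ x) (hx : x < N) (hy0 : 0 ≤ y) (hy : y < N)
    (h : N ∣ x - y) : x = y := by
  have := Int.eq_zero_of_abs_lt_dvd h (by rw [abs_lt]; constructor <;> omega)
  omega

lemma arc {N h p P q Q T : ℤ} (hh : 0 < h) (h1 : p + 4 * h ≤ P) (h2 : q + 4 * h ≤ Q)
    (h0 : 0 ≤ p) (hPN : P ≤ N) (hT1 : p + q + 3 * h ≤ T) (hT2 : T ≤ P + Q - 3 * h) :
    ∃ v0, q ≤ v0 ∧ v0 + h ≤ Q ∧ ∀ v T' u, v0 ≤ v → v < v0 + h → T ≤ T' → T' < T + h → 0 ≤ u → u < N →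
      N ∣ u + v - T' → (p ≤ u ∧ u < P) := by
  refine ⟨max q (T + h - P), by omega, by omega, ?_⟩
  intro v T' u hv1 hv2 ht1 ht2 hu0 hu hd
  have h3 : u = T' - v := by
    apply eq_of_dvd_sub hu0 hu (by omega) (by omega)
    have : u - (T' - v) = u + v - T' := by ring
    rwa [this]
  omega

lemma exists_rep (N w lo : ℤ) (hN : 0 < N) : ∃ T, N ∣ T - w ∧ lo ≤ T ∧ T < lo + N := by
  refine ⟨lo + (w - lo) % N, ?_, ?_, ?_⟩
  · have : lo + (w - lo) % N - w = - ((w - lo) - (w - lo) % N) := by ring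
    rw [this]
    exact (Int.dvd_neg).2 (Int.dvd_self_sub_emod)
  · have := Int.emod_nonneg (w - lo) hN.ne'
    omega
  · have := Int.emod_lt_of_pos (w - lo) hN
    omega

/-- the conclusion for a corner -/
def Good (N h τ σ A B X0 R0 v3 v4 : ℤ) : Prop :=
  ∀ X R I1 I2 I3 I4 : ℤ, X0 ≤ X → X < X0 + h → R0 ≤ R → R < R0 + h →
    v3 ≤ I3 → I3 < v3 + h → v4 ≤ I4 → I4 < v4 + h → 0 ≤ I1 → I1 < N → 0 ≤ I2 → I2 < N →
    N ∣ I1 + I3 - (A + R) → N ∣ I2 + I4 - (B + R) →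
    DiffFree N τ X I1 ∧ SumFree N τ X I2 ∧ DiffFree N R σ I3 ∧ SumFree N R σ I4

lemma cong_shift {N A R R0 T I1 I3 : ℤ} (hT : N ∣ T - (A + R0)) (h : N ∣ I1 + I3 - (A + R)) :
    N ∣ I1 + I3 - (T + (R - R0)) := by
  have : I1 + I3 - (T + (R - R0)) = (I1 + I3 - (A + R)) - (T - (A + R0)) := by ring
  rw [this]
  exact dvd_sub h hT

/-- assembling a corner from two arcs -/
lemma corner {N h τ σ A B X0 R0 p1 P1 q1 Q1 p2 P2 q2 Q2 T1 T2 : ℤ} (hh : 0 < h)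
    (a1 : p1 + 4 * h ≤ P1) (a2 : q1 + 4 * h ≤ Q1) (a3 : 0 ≤ p1) (a4 : P1 ≤ N)
    (a5 : p1 + q1 + 3 * h ≤ T1) (a6 : T1 ≤ P1 + Q1 - 3 * h) (a7 : 0 ≤ q1) (a8 : Q1 ≤ N)
    (b1 : p2 + 4 * h ≤ P2) (b2 : q2 + 4 * h ≤ Q2) (b3 : 0 ≤ p2) (b4 : P2 ≤ N)
    (b5 : p2 + q2 + 3 * h ≤ T2) (b6 : T2 ≤ P2 + Q2 - 3 * h) (b7 : 0 ≤ q2) (b8 : Q2 ≤ N)
    (c1 : N ∣ T1 - (A + R0)) (c2 : N ∣ T2 - (B + R0))
    (hD1 : ∀ X I, X0 ≤ X → X < X0 + h → p1 ≤ I → I < P1 → DiffFree N τ X I)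
    (hD2 : ∀ R I, R0 ≤ R → R < R0 + h → q1 ≤ I → I < Q1 → DiffFree N R σ I)
    (hS1 : ∀ X I, X0 ≤ X → X < X0 + h → p2 ≤ I → I < P2 → SumFree N τ X I)
    (hS2 : ∀ R I, R0 ≤ R → R < R0 + h → q2 ≤ I → I < Q2 → SumFree N R σ I) :
    ∃ v3 v4, 0 ≤ v3 ∧ v3 + h ≤ N ∧ 0 ≤ v4 ∧ v4 + h ≤ N ∧ Good N h τ σ A B X0 R0 v3 v4 := by
  obtain ⟨v3, e1, e2, e3⟩ := arc hh a1 a2 a3 a4 a5 a6
  obtain ⟨v4, f1, f2, f3⟩ := arc hh b1 b2 b3 b4 b5 b6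
  refine ⟨v3, v4, by omega, by omega, by omega, by omega, ?_⟩
  intro X R I1 I2 I3 I4 x1 x2 r1 r2 i1 i2 i3 i4 j1 j2 j3 j4 k1 k2
  have g1 := e3 I3 (T1 + (R - R0)) I1 i1 i2 (by omega) (by omega) j1 j2 (cong_shift c1 k1)
  have g2 := f3 I4 (T2 + (R - R0)) I2 i3 i4 (by omega) (by omega) j3 j4 (cong_shift c2 k2)
  exact ⟨hD1 _ _ x1 x2 g1.1 g1.2, hS1 _ _ x1 x2 g2.1 g2.2,
    hD2 _ _ r1 r2 (by omega) (by omega), hS2 _ _ r1 r2 (by omega) (by omega)⟩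

/-- existence of a good corner -/
lemma exists_corner {N h τ σ A B : ℤ} (hh : 0 < h) (hN : 100 * h ≤ N)
    (t1 : 20 * h ≤ τ) (t2 : τ ≤ N - 20 * h) (s1 : 20 * h ≤ σ) (s2 : σ ≤ N - 20 * h)
    (d1 : 20 * h ≤ |τ - σ|) (d2 : 20 * h ≤ |τ + σ - N|) :
    ∃ X0 R0 v3 v4, (X0 = h ∨ X0 = N - 2 * h) ∧ (R0 = h ∨ R0 = N - 2 * h) ∧
      0 ≤ v3 ∧ v3 + h ≤ N ∧ 0 ≤ v4 ∧ v4 + h ≤ N ∧ Good N h τ σ A B X0 R0 v3 v4 := by
  have hN0 : 0 < N := by omega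
  obtain ⟨A', hA1, hA2, hA3⟩ := exists_rep N A 0 hN0
  have dA : ∀ T R0, (∃ k, T = A' + R0 + k * N) → N ∣ T - (A + R0) := by
    rintro T R0 ⟨k, rfl⟩
    have : A' + R0 + k * N - (A + R0) = (A' - A) + k * N := by ring
    rw [this]
    exact dvd_add hA1 (Dvd.intro_left k rfl)
  rw [le_abs] at d1 d2
  -- corner (0,0)
  have c00 : τ + σ ≤ N - 20 * h → (A' ≤ τ - 6 * h ∨ N - σ + 4 * h ≤ A') →
      ∃ v3 v4, 0 ≤ v3 ∧ v3 + h ≤ N ∧ 0 ≤ v4 ∧ v4 + h ≤ N ∧ Good N h τ σ A B h h v3 v4 := by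
    intro u1 u2
    obtain ⟨T2, g1, g2, g3⟩ := exists_rep N (B + h) (τ + 2 * h + (σ + 2 * h) + 3 * h) hN0
    have hT1 : ∃ T1, N ∣ T1 - (A + h) ∧ 0 + (N - σ + 2 * h) + 3 * h ≤ T1 ∧
        T1 ≤ τ - 2 * h + N - 3 * h := by
      rcases u2 with u2 | u2
      · exact ⟨A' + h + N, dA _ _ ⟨1, by ring⟩, by omega, by omega⟩
      · exact ⟨A' + h, dA _ _ ⟨0, by ring⟩, by omega, by omega⟩
    obtain ⟨T1, f1, f2, f3⟩ := hT1
    refine corner (p1 := 0) (P1 := τ - 2 * h) (q1 := N - σ + 2 * h) (Q1 := N)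
      (p2 := τ + 2 * h) (P2 := N) (q2 := σ + 2 * h) (Q2 := N) (T1 := T1) (T2 := T2) hh
      (by omega) (by omega) (by omega) (by omega) f2 f3 (by omega) (by omega)
      (by omega) (by omega) (by omega) (by omega) g2 (by omega) (by omega) (by omega) f1 g1 ?_ ?_ ?_ ?_
    all_goals intro X I x1 x2 x3 x4
    all_goals first | unfold DiffFree | unfold SumFree
    all_goals omega
  -- corner (0,1)
  have c01 : τ + 20 * h ≤ σ → (5 * h ≤ A' ∧ A' ≤ N + τ - σ - 5 * h) →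
      ∃ v3 v4, 0 ≤ v3 ∧ v3 + h ≤ N ∧ 0 ≤ v4 ∧ v4 + h ≤ N ∧
        Good N h τ σ A B h (N - 2 * h) v3 v4 := by
    intro u1 u2
    obtain ⟨T2, g1, g2, g3⟩ := exists_rep N (B + (N - 2 * h)) (τ + 2 * h + 0 + 3 * h) hN0
    have f1 : N ∣ (A' - 2 * h) - (A + (N - 2 * h)) := dA _ _ ⟨-1, by ring⟩
    refine corner (p1 := 0) (P1 := τ - 2 * h) (q1 := 0) (Q1 := N - σ - 2 * h)
      (p2 := τ + 2 * h) (P2 := N) (q2 := 0) (Q2 := σ - 2 * h) (T1 := A' - 2 * h) (T2 := T2) hh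
      (by omega) (by omega) (by omega) (by omega) (by omega) (by omega) (by omega) (by omega)
      (by omega) (by omega) (by omega) (by omega) g2 (by omega) (by omega) (by omega) f1 g1 ?_ ?_ ?_ ?_
    all_goals intro X I x1 x2 x3 x4
    all_goals first | unfold DiffFree | unfold SumFree
    all_goals omega
  -- corner (1,0)
  have c10 : σ + 20 * h ≤ τ → (τ - σ + 6 * h ≤ A' ∧ A' ≤ N - 4 * h) →
      ∃ v3 v4, 0 ≤ v3 ∧ v3 + h ≤ N ∧ 0 ≤ v4 ∧ v4 + h ≤ N ∧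
        Good N h τ σ A B (N - 2 * h) h v3 v4 := by
    intro u1 u2
    obtain ⟨T2, g1, g2, g3⟩ := exists_rep N (B + h) (0 + (σ + 2 * h) + 3 * h) hN0
    have f1 : N ∣ (A' + h + N) - (A + h) := dA _ _ ⟨1, by ring⟩
    refine corner (p1 := τ + 2 * h) (P1 := N) (q1 := N - σ + 2 * h) (Q1 := N)
      (p2 := 0) (P2 := τ - 2 * h) (q2 := σ + 2 * h) (Q2 := N) (T1 := A' + h + N) (T2 := T2) hh
      (by omega) (by omega) (by omega) (by omega) (by omega) (by omega) (by omega) (by omega)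
      (by omega) (by omega) (by omega) (by omega) g2 (by omega) (by omega) (by omega) f1 g1 ?_ ?_ ?_ ?_
    all_goals intro X I x1 x2 x3 x4
    all_goals first | unfold DiffFree | unfold SumFree
    all_goals omega
  -- corner (1,1)
  have c11 : N + 20 * h ≤ τ + σ → (A' ≤ N - σ - 3 * h ∨ τ + 7 * h ≤ A') →
      ∃ v3 v4, 0 ≤ v3 ∧ v3 + h ≤ N ∧ 0 ≤ v4 ∧ v4 + h ≤ N ∧
        Good N h τ σ A B (N - 2 * h) (N - 2 * h) v3 v4 := by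
    intro u1 u2
    obtain ⟨T2, g1, g2, g3⟩ := exists_rep N (B + (N - 2 * h)) (0 + 0 + 3 * h) hN0
    have hT1 : ∃ T1, N ∣ T1 - (A + (N - 2 * h)) ∧ τ + 2 * h + 0 + 3 * h ≤ T1 ∧
        T1 ≤ N + (N - σ - 2 * h) - 3 * h := by
      rcases u2 with u2 | u2
      · exact ⟨A' - 2 * h + N, dA _ _ ⟨0, by ring⟩, by omega, by omega⟩
      · exact ⟨A' - 2 * h, dA _ _ ⟨-1, by ring⟩, by omega, by omega⟩
    obtain ⟨T1, f1, f2, f3⟩ := hT1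
    refine corner (p1 := τ + 2 * h) (P1 := N) (q1 := 0) (Q1 := N - σ - 2 * h)
      (p2 := 0) (P2 := τ - 2 * h) (q2 := 0) (Q2 := σ - 2 * h) (T1 := T1) (T2 := T2) hh
      (by omega) (by omega) (by omega) (by omega) f2 f3 (by omega) (by omega)
      (by omega) (by omega) (by omega) (by omega) g2 (by omega) (by omega) (by omega) f1 g1 ?_ ?_ ?_ ?_
    all_goals intro X I x1 x2 x3 x4
    all_goals first | unfold DiffFree | unfold SumFree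
    all_goals omega
  rcases d2 with d2 | d2 <;> rcases d1 with d1 | d1
  · -- τ + σ ≥ N + 20 h, τ ≥ σ + 20 h
    by_cases hc : A' ≤ N - σ - 3 * h ∨ τ + 7 * h ≤ A'
    · obtain ⟨v3, v4, hv⟩ := c11 (by omega) hc
      exact ⟨_, _, v3, v4, Or.inr rfl, Or.inr rfl, hv⟩
    · obtain ⟨v3, v4, hv⟩ := c10 (by omega) (by omega)
      exact ⟨_, _, v3, v4, Or.inr rfl, Or.inl rfl, hv⟩
  · by_cases hc : 5 * h ≤ A' ∧ A' ≤ N + τ - σ - 5 * h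
    · obtain ⟨v3, v4, hv⟩ := c01 (by omega) hc
      exact ⟨_, _, v3, v4, Or.inl rfl, Or.inr rfl, hv⟩
    · obtain ⟨v3, v4, hv⟩ := c11 (by omega) (by omega)
      exact ⟨_, _, v3, v4, Or.inr rfl, Or.inr rfl, hv⟩
  · by_cases hc : A' ≤ τ - 6 * h ∨ N - σ + 4 * h ≤ A'
    · obtain ⟨v3, v4, hv⟩ := c00 (by omega) hc
      exact ⟨_, _, v3, v4, Or.inl rfl, Or.inl rfl, hv⟩
    · obtain ⟨v3, v4, hv⟩ := c10 (by omega) (by omega)
      exact ⟨_, _, v3, v4, Or.inr rfl, Or.inl rfl, hv⟩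
  · by_cases hc : A' ≤ τ - 6 * h ∨ N - σ + 4 * h ≤ A'
    · obtain ⟨v3, v4, hv⟩ := c00 (by omega) hc
      exact ⟨_, _, v3, v4, Or.inl rfl, Or.inl rfl, hv⟩
    · obtain ⟨v3, v4, hv⟩ := c01 (by omega) (by omega)
      exact ⟨_, _, v3, v4, Or.inl rfl, Or.inr rfl, hv⟩

end H58.QN
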