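import Mathlib

/-!
Nested intervals: a real number `z` with prescribed multiples modulo `N`.
-/

namespace H58.QN

/-- `s * z` lies in the window `[t, t + g)` modulo `N` -/
def Win (N g s t z : ℝ) : Prop := ∃ k : ℤ, t ≤ s * z - k * N ∧ s * z - k * N < t + g

lemma nest_step {N g s L W : ℝ} (t : ℝ) (hN : 0 < N) (hs : 0 < s)
    (hW : (N + g) / s ≤ W) :
    ∃ L', L ≤ L' ∧ L' + g / s ≤ L + W ∧ ∀ z : ℝ, L' ≤ z → z < L' + g / s → Win N g s t z := by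
  set k := ⌈(s * L - t) / N⌉ with hk
  have h1 : (s * L - t) / N ≤ k := Int.le_ceil _
  have h2 : (k : ℝ) < (s * L - t) / N + 1 := Int.ceil_lt_add_one _
  have h3 : s * L - t ≤ k * N := by rwa [div_le_iff₀ hN] at h1
  have h4 : k * N < s * L - t + N := by
    have := (mul_lt_mul_iff_left₀ hN).2 h2
    have h5 : ((s * L - t) / N + 1) * N = s * L - t + N := by field_simp
    linarith
  refine ⟨(t + k * N) / s, ?_, ?_, ?_⟩
  · rw [le_div_iff₀ hs]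
    linarith
  · have : (t + k * N) / s + g / s ≤ L + (N + g) / s := by
      rw [← add_div, div_le_iff₀ hs, add_mul, div_mul_cancel₀ _ hs.ne']
      linarith
    linarith
  · intro z hz1 hz2
    refine ⟨k, ?_, ?_⟩
    · rw [div_le_iff₀ hs] at hz1
      linarith
    · rw [← add_div, lt_div_iff₀ hs] at hz2
      linarith

/-- six nested windows -/
lemma nest_six {N g s0 s1 s2 s3 s4 s5 : ℝ} (t0 t1 t2 t3 t4 t5 : ℝ) (hN : 0 < N) (hg : 0 < g)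
    (h0 : 0 < s0) (h1 : 0 < s1) (h2 : 0 < s2) (h3 : 0 < s3) (h4 : 0 < s4) (h5 : 0 < s5)
    (r0 : N + g ≤ s0 * N) (r1 : (N + g) * s0 ≤ g * s1) (r2 : (N + g) * s1 ≤ g * s2)
    (r3 : (N + g) * s2 ≤ g * s3) (r4 : (N + g) * s3 ≤ g * s4) (r5 : (N + g) * s4 ≤ g * s5) :
    ∃ L : ℝ, ∀ z : ℝ, L ≤ z → z < L + g / s5 →
      Win N g s0 t0 z ∧ Win N g s1 t1 z ∧ Win N g s2 t2 z ∧ Win N g s3 t3 z ∧
        Win N g s4 t4 z ∧ Win N g s5 t5 z := by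
  have key : ∀ {a b : ℝ}, 0 < a → 0 < b → (N + g) * a ≤ g * b → (N + g) / b ≤ g / a := by
    intro a b ha hb hab
    rw [div_le_div_iff₀ hb ha]
    linarith
  obtain ⟨L0, a1, a2, a3⟩ := nest_step (g := g) (L := 0) (W := N) t0 hN h0 (by
    rw [div_le_iff₀ h0]; linarith)
  obtain ⟨L1, b1, b2, b3⟩ := nest_step (L := L0) (W := g / s0) t1 hN h1 (key h0 h1 r1)
  obtain ⟨L2, c1, c2, c3⟩ := nest_step (L := L1) (W := g / s1) t2 hN h2 (key h1 h2 r2)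
  obtain ⟨L3, d1, d2, d3⟩ := nest_step (L := L2) (W := g / s2) t3 hN h3 (key h2 h3 r3)
  obtain ⟨L4, e1, e2, e3⟩ := nest_step (L := L3) (W := g / s3) t4 hN h4 (key h3 h4 r4)
  obtain ⟨L5, f1, f2, f3⟩ := nest_step (L := L4) (W := g / s4) t5 hN h5 (key h4 h5 r5)
  refine ⟨L5, ?_⟩
  intro z hz1 hz2
  exact ⟨a3 z (by linarith) (by linarith), b3 z (by linarith) (by linarith),
    c3 z (by linarith) (by linarith), d3 z (by linarith) (by linarith),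
    e3 z (by linarith) (by linarith), f3 z hz1 hz2⟩

/-- integer version: a run of `K` consecutive integers -/
lemma nest_int {N g s0 s1 s2 s3 s4 s5 : ℤ} (t0 t1 t2 t3 t4 t5 : ℤ) (K : ℕ) (hN : 0 < N) (hg : 0 < g)
    (h0 : 0 < s0) (h1 : 0 < s1) (h2 : 0 < s2) (h3 : 0 < s3) (h4 : 0 < s4) (h5 : 0 < s5)
    (r0 : N + g ≤ s0 * N) (r1 : (N + g) * s0 ≤ g * s1) (r2 : (N + g) * s1 ≤ g * s2)
    (r3 : (N + g) * s2 ≤ g * s3) (r4 : (N + g) * s3 ≤ g * s4) (r5 : (N + g) * s4 ≤ g * s5)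
    (hK : (K + 1) * s5 ≤ g) :
    ∃ z0 : ℤ, ∀ z : ℤ, z0 ≤ z → z < z0 + K →
      (∃ k : ℤ, t0 ≤ s0 * z - k * N ∧ s0 * z - k * N < t0 + g) ∧
      (∃ k : ℤ, t1 ≤ s1 * z - k * N ∧ s1 * z - k * N < t1 + g) ∧
      (∃ k : ℤ, t2 ≤ s2 * z - k * N ∧ s2 * z - k * N < t2 + g) ∧
      (∃ k : ℤ, t3 ≤ s3 * z - k * N ∧ s3 * z - k * N < t3 + g) ∧
      (∃ k : ℤ, t4 ≤ s4 * z - k * N ∧ s4 * z - k * N < t4 + g) ∧
      (∃ k : ℤ, t5 ≤ s5 * z - k * N ∧ s5 * z - k * N < t5 + g) := by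
  obtain ⟨L, hL⟩ := nest_six (N := (N : ℝ)) (g := (g : ℝ)) (s0 := (s0 : ℝ)) (s1 := (s1 : ℝ))
    (s2 := (s2 : ℝ)) (s3 := (s3 : ℝ)) (s4 := (s4 : ℝ)) (s5 := (s5 : ℝ)) t0 t1 t2 t3 t4 t5
    (by exact_mod_cast hN) (by exact_mod_cast hg) (by exact_mod_cast h0) (by exact_mod_cast h1)
    (by exact_mod_cast h2) (by exact_mod_cast h3) (by exact_mod_cast h4) (by exact_mod_cast h5)
    (by exact_mod_cast r0) (by exact_mod_cast r1) (by exact_mod_cast r2)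
    (by exact_mod_cast r3) (by exact_mod_cast r4) (by exact_mod_cast r5)
  have hs5 : (0 : ℝ) < s5 := by exact_mod_cast h5
  have hK' : (K : ℝ) + 1 ≤ (g : ℝ) / s5 := by
    rw [le_div_iff₀ hs5]
    exact_mod_cast hK
  refine ⟨⌈L⌉, ?_⟩
  intro z hz1 hz2
  have e1 : L ≤ z := (Int.le_ceil L).trans (by exact_mod_cast hz1)
  have e2 : (z : ℝ) < L + (g : ℝ) / s5 := by
    have e3 : (z : ℝ) < ⌈L⌉ + K := by exact_mod_cast hz2
    have e4 := Int.ceil_lt_add_one L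
    linarith
  obtain ⟨w0, w1, w2, w3, w4, w5⟩ := hL z e1 e2
  have conv : ∀ {s t : ℤ}, Win (N : ℝ) g s t z →
      ∃ k : ℤ, t ≤ s * z - k * N ∧ s * z - k * N < t + g := by
    rintro s t ⟨k, k1, k2⟩
    exact ⟨k, by exact_mod_cast k1, by exact_mod_cast k2⟩
  exact ⟨conv w0, conv w1, conv w2, conv w3, conv w4, conv w5⟩

end H58.QN
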