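import Mathlib
import Pool.Agent.H58.QN.Macro
import Pool.Agent.H58.QN.Nest

/-!
One class of the toroidal square: candidates for the repair of one row and one column.
-/

namespace H58.QN

/-- the parameters -/
structure Par where
  N : ℤ
  a : ℤ
  g : ℤ
  n : ℤ
  r : ℕ
  ν : ℕ → ℤ
  hg : 0 < g
  hN : 400 * g ≤ N
  hn : n + r = N
  hr : (r : ℤ) ≤ g
  ha : 2 * (N + g) ≤ g * (a - 1)
  c2 : IsCoprime (2 : ℤ) N
  c3 : IsCoprime (3 : ℤ) N
  ca : IsCoprime a N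
  cm : IsCoprime (a - 1) N
  cp : IsCoprime (a + 1) N
  hν : ∀ j : ℕ, N ∣ a * (a ^ 2 - 1) * ν j - (n + j)
  room : ((9 * r + 4 : ℕ) + 1 : ℤ) * (a ^ 5 - a ^ 3) ≤ g

namespace Par

variable (P : Par)

/-- row of the lost queen of column `n + j` -/
def tau (e : ℤ) (j : ℕ) : ℤ := ((P.a ^ 2 - 1) * (P.ν j - e)) % P.N
/-- column of the lost queen of row `n + j` -/
def sig (e : ℤ) (j : ℕ) : ℤ := (P.a * (P.a ^ 2 - 1) * (P.a * P.ν j + e)) % P.N
/-- the column of the removed queen -/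
def xx (z : ℤ) : ℤ := (P.a * (P.a ^ 2 - 1) * z) % P.N
/-- the row of the removed queen -/
def rr (e z : ℤ) : ℤ := ((P.a ^ 2 - 1) * (z - e)) % P.N
/-- label of the class of the cell `(tau, xx)` -/
def g1 (e : ℤ) (j : ℕ) (z : ℤ) : ℤ := z - P.ν j + e
/-- label of the class of the cell `(rr, sig)` -/
def g2 (e : ℤ) (j : ℕ) (z : ℤ) : ℤ := P.a * P.ν j - z + 2 * e

/-- the classes which are kept -/
structure Kept (e : ℤ) : Prop where
  k1 : P.r * (4 * P.g) ≤ ((P.a ^ 4 - P.a ^ 2) * e) % P.N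
  k2 : P.r * (4 * P.g) ≤ ((P.a ^ 5 - P.a ^ 3) * e) % P.N
  k3 : ∀ j < P.r, 20 * (4 * P.g) ≤ ((P.a ^ 2 - 1) * (P.ν j - e)) % P.N ∧
    ((P.a ^ 2 - 1) * (P.ν j - e)) % P.N ≤ P.N - 20 * (4 * P.g)
  k4 : ∀ j < P.r, 20 * (4 * P.g) ≤ (P.a * (P.a ^ 2 - 1) * (P.a * P.ν j + e)) % P.N ∧
    (P.a * (P.a ^ 2 - 1) * (P.a * P.ν j + e)) % P.N ≤ P.N - 20 * (4 * P.g)
  k5 : ∀ j < P.r, 20 * (4 * P.g) ≤
      ((P.a ^ 2 - 1) * (P.ν j - e) - P.a * (P.a ^ 2 - 1) * (P.a * P.ν j + e)) % P.N ∧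
    ((P.a ^ 2 - 1) * (P.ν j - e) - P.a * (P.a ^ 2 - 1) * (P.a * P.ν j + e)) % P.N
      ≤ P.N - 20 * (4 * P.g)
  k6 : ∀ j < P.r, 20 * (4 * P.g) ≤
      ((P.a ^ 2 - 1) * (P.ν j - e) + P.a * (P.a ^ 2 - 1) * (P.a * P.ν j + e)) % P.N ∧
    ((P.a ^ 2 - 1) * (P.ν j - e) + P.a * (P.a ^ 2 - 1) * (P.a * P.ν j + e)) % P.N
      ≤ P.N - 20 * (4 * P.g)
  k7 : ∀ j < P.r, 2 * P.r * (4 * P.g) ≤
      ((P.a ^ 4 - P.a ^ 2) * ((P.a - 1) * P.ν j + 3 * e)) % P.N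

end Par

lemma win_emod {N t g E : ℤ} (h0 : 0 ≤ t) (h1 : t + g ≤ N)
    (h : ∃ k : ℤ, t ≤ E - k * N ∧ E - k * N < t + g) : t ≤ E % N ∧ E % N < t + g := by
  obtain ⟨k, k1, k2⟩ := h
  have h2 : E % N = E - k * N := by
    have h3 : (E - k * N) % N = E % N := by
      rw [Int.sub_mul_emod_self_right]
    rw [← h3]
    exact Int.emod_eq_of_lt (by omega) (by omega)
  rw [h2]
  exact ⟨k1, k2⟩

lemma emod_dvd (N E : ℤ) : N ∣ E % N - E := by
  have : E % N - E = -(E - E % N) := by ring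
  rw [this]
  exact (Int.dvd_neg).2 Int.dvd_self_sub_emod

lemma diff_blocked {N a c u w I i v : ℤ} (hco : IsCoprime (a - 1) N) (hI0 : 0 ≤ I) (hI : I < N)
    (hc : N ∣ (a - 1) * I - (w - u - c)) (hf : DiffFree N u w I)
    (hi0 : 0 ≤ i) (hi : i < N) (hv0 : 0 ≤ v) (hv : v < N) (hq : N ∣ v - (a * i + c)) :
    i - v ≠ u - w := by
  intro heq
  have h1 : N ∣ (a - 1) * (i - I) := by
    have h2 : (a - 1) * (i - I) = -(v - (a * i + c)) - ((a - 1) * I - (w - u - c)) +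
        (v - i - (w - u)) := by ring
    rw [h2, show v - i - (w - u) = 0 by omega, add_zero]
    exact dvd_sub ((Int.dvd_neg).2 hq) hc
  have h3 : N ∣ i - I := (hco.symm).dvd_of_dvd_mul_left h1
  have h4 := eq_of_dvd_sub hi0 hi hI0 hI h3
  unfold DiffFree at hf
  omega

lemma sum_blocked {N a c u w I i v : ℤ} (hco : IsCoprime (a + 1) N) (hI0 : 0 ≤ I) (hI : I < N)
    (hc : N ∣ (a + 1) * I - (u + w - c)) (hf : SumFree N u w I)
    (hi0 : 0 ≤ i) (hi : i < N) (hv0 : 0 ≤ v) (hv : v < N) (hq : N ∣ v - (a * i + c)) :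
    i + v ≠ u + w := by
  intro heq
  have h1 : N ∣ (a + 1) * (i - I) := by
    have h2 : (a + 1) * (i - I) = -(v - (a * i + c)) - ((a + 1) * I - (u + w - c)) +
        (v + i - (u + w)) := by ring
    rw [h2, show v + i - (u + w) = 0 by omega, add_zero]
    exact dvd_sub ((Int.dvd_neg).2 hq) hc
  have h3 : N ∣ i - I := (hco.symm).dvd_of_dvd_mul_left h1
  have h4 := eq_of_dvd_sub hi0 hi hI0 hI h3
  unfold SumFree at hf
  omega

/-- the properties of a candidate -/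
structure Cand (P : Par) (e : ℤ) (j : ℕ) (z : ℤ) : Prop where
  x0 : 0 ≤ P.xx z
  x1 : P.xx z < P.n
  r0 : 0 ≤ P.rr e z
  r1 : P.rr e z < P.n
  d1 : ∀ i v, 0 ≤ i → i < P.N → 0 ≤ v → v < P.N → P.N ∣ v - (P.a * i + P.a * (P.a ^ 2 - 1) * e) →
    i - v ≠ P.tau e j - P.xx z
  e1 : ∀ i v, 0 ≤ i → i < P.N → 0 ≤ v → v < P.N → P.N ∣ v - (P.a * i + P.a * (P.a ^ 2 - 1) * e) →
    i + v ≠ P.tau e j + P.xx z
  d2 : ∀ i v, 0 ≤ i → i < P.N → 0 ≤ v → v < P.N → P.N ∣ v - (P.a * i + P.a * (P.a ^ 2 - 1) * e) →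
    i - v ≠ P.rr e z - P.sig e j
  e2 : ∀ i v, 0 ≤ i → i < P.N → 0 ≤ v → v < P.N → P.N ∣ v - (P.a * i + P.a * (P.a ^ 2 - 1) * e) →
    i + v ≠ P.rr e z + P.sig e j
  s1 : j * (4 * P.g) ≤ ((P.a ^ 4 - P.a ^ 2) * P.g1 e j z) % P.N ∧
    ((P.a ^ 4 - P.a ^ 2) * P.g1 e j z) % P.N < (j + 1) * (4 * P.g)
  s2 : j * (4 * P.g) ≤ ((P.a ^ 5 - P.a ^ 3) * P.g2 e j z) % P.N ∧
    ((P.a ^ 5 - P.a ^ 3) * P.g2 e j z) % P.N < (j + 1) * (4 * P.g)
  s3 : P.r * (4 * P.g) ≤ ((P.a ^ 4 - P.a ^ 2) * P.g2 e j z) % P.N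

/-- existence of a run of `9 r + 4` candidates -/
lemma exists_cand (P : Par) {e : ℤ} (hk : P.Kept e) {j : ℕ} (hj : j < P.r) :
    ∃ z0 : ℤ, ∀ z : ℤ, z0 ≤ z → z < z0 + (9 * P.r + 4 : ℕ) → Cand P e j z := by
  obtain ⟨N, a, g, n, r, ν, hg, hN, hn, hr, ha, c2, c3, ca, cm, cp, hν, room⟩ := P
  simp only at hj
  obtain ⟨k1, k2, k3, k4, k5, k6, k7⟩ := hk
  simp only at k1 k2 k3 k4 k5 k6 k7
  have hN0 : 0 < N := by omega
  set h : ℤ := 4 * g with hh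
  have hh0 : 0 < h := by omega
  have hjr : (j : ℤ) + 1 ≤ r := by exact_mod_cast hj
  obtain ⟨t1, t2⟩ := k3 j hj
  obtain ⟨s1, s2⟩ := k4 j hj
  have h5 := k5 j hj
  have h6 := k6 j hj
  have h7 := k7 j hj
  set v := ν j with hv
  set τ := ((a ^ 2 - 1) * (v - e)) % N with hτ
  set σ := (a * (a ^ 2 - 1) * (a * v + e)) % N with hσ
  have dτ : N ∣ τ - (a ^ 2 - 1) * (v - e) := emod_dvd _ _
  have dσ : N ∣ σ - a * (a ^ 2 - 1) * (a * v + e) := emod_dvd _ _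
  have hd1 : 20 * h ≤ |τ - σ| := by
    by_contra hlt
    push Not at hlt
    rw [abs_lt] at hlt
    set m := ((a ^ 2 - 1) * (v - e) - a * (a ^ 2 - 1) * (a * v + e)) % N with hm
    have dm : N ∣ m - ((a ^ 2 - 1) * (v - e) - a * (a ^ 2 - 1) * (a * v + e)) := emod_dvd _ _
    have m0 := Int.emod_nonneg ((a ^ 2 - 1) * (v - e) - a * (a ^ 2 - 1) * (a * v + e)) hN0.ne'
    have m1 := Int.emod_lt_of_pos ((a ^ 2 - 1) * (v - e) - a * (a ^ 2 - 1) * (a * v + e)) hN0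
    rw [← hm] at m0 m1
    have dd : N ∣ m - (τ - σ) := by
      have : m - (τ - σ) = (m - ((a ^ 2 - 1) * (v - e) - a * (a ^ 2 - 1) * (a * v + e))) -
        (τ - (a ^ 2 - 1) * (v - e)) + (σ - a * (a ^ 2 - 1) * (a * v + e)) := by ring
      rw [this]
      exact dvd_add (dvd_sub dm dτ) dσ
    rcases le_or_gt 0 (τ - σ) with hs | hs
    · have := eq_of_dvd_sub m0 m1 hs (by omega) dd
      omega
    · have := eq_of_dvd_sub (y := τ - σ + N) m0 m1 (by omega) (by omega) (by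
        have : m - (τ - σ + N) = (m - (τ - σ)) - N := by ring
        rw [this]; exact dvd_sub dd dvd_rfl)
      omega
  have hd2 : 20 * h ≤ |τ + σ - N| := by
    by_contra hlt
    push Not at hlt
    rw [abs_lt] at hlt
    set m := ((a ^ 2 - 1) * (v - e) + a * (a ^ 2 - 1) * (a * v + e)) % N with hm
    have dm : N ∣ m - ((a ^ 2 - 1) * (v - e) + a * (a ^ 2 - 1) * (a * v + e)) := emod_dvd _ _
    have m0 := Int.emod_nonneg ((a ^ 2 - 1) * (v - e) + a * (a ^ 2 - 1) * (a * v + e)) hN0.ne'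
    have m1 := Int.emod_lt_of_pos ((a ^ 2 - 1) * (v - e) + a * (a ^ 2 - 1) * (a * v + e)) hN0
    rw [← hm] at m0 m1
    have dd : N ∣ m - (τ + σ) := by
      have : m - (τ + σ) = (m - ((a ^ 2 - 1) * (v - e) + a * (a ^ 2 - 1) * (a * v + e))) -
        (τ - (a ^ 2 - 1) * (v - e)) - (σ - a * (a ^ 2 - 1) * (a * v + e)) := by ring
      rw [this]
      exact dvd_sub (dvd_sub dm dτ) dσ
    rcases le_or_gt N (τ + σ) with hs | hs
    · have := eq_of_dvd_sub (y := τ + σ - N) m0 m1 (by omega) (by omega) (by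
        have : m - (τ + σ - N) = (m - (τ + σ)) + N := by ring
        rw [this]; exact dvd_add dd dvd_rfl)
      omega
    · have := eq_of_dvd_sub m0 m1 (by omega) (by omega) dd
      omega
  obtain ⟨X0, R0, v3, v4, hX0, hR0, b1, b2, b3, b4, hgood⟩ := exists_corner
    (A := (a + 1) * ((a ^ 2 - 1) * v + e)) (B := (a - 1) * ((a ^ 2 + 1) * v - e))
    hh0 (by omega) t1 t2 s1 s2 hd1 hd2
  -- positivity of a
  have ha3 : 3 ≤ a := by
    by_contra hlt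
    push Not at hlt
    nlinarith
  have ha1 : 0 < a - 1 := by omega
  have ha2 : 0 < a ^ 2 - 1 := by nlinarith
  have e3 : a ^ 3 - a = a * (a ^ 2 - 1) := by ring
  have e4 : a ^ 4 - a ^ 2 = a * (a ^ 3 - a) := by ring
  have e5 : a ^ 5 - a ^ 3 = a * (a ^ 4 - a ^ 2) := by ring
  have p3 : 0 < a ^ 3 - a := by rw [e3]; positivity
  have p4 : 0 < a ^ 4 - a ^ 2 := by rw [e4]; positivity
  have p5 : 0 < a ^ 5 - a ^ 3 := by rw [e5]; positivity
  have hag : N + g ≤ g * a := by nlinarith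
  have hag1 : N + g ≤ g * (a + 1) := by nlinarith
  obtain ⟨z0, hz0⟩ := nest_int (N := N) (g := g) (s0 := 2) (s1 := a - 1) (s2 := a ^ 2 - 1)
    (s3 := a ^ 3 - a) (s4 := a ^ 4 - a ^ 2) (s5 := a ^ 5 - a ^ 3)
    ((a + 1) * (a ^ 2 * v + e) - (v4 - (a - 1) * (a ^ 2 * v - e)) - v3 - 2 * g)
    (v4 - (a - 1) * (a ^ 2 * v - e)) (R0 + (a ^ 2 - 1) * e) X0
    ((a ^ 4 - a ^ 2) * (v - e) + j * h) ((a ^ 5 - a ^ 3) * (a * v + 2 * e) - (j * h + g))
    (9 * r + 4) hN0 hg (by norm_num) ha1 ha2 p3 p4 p5 (by omega) (by linarith)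
    (by
      have : g * (a ^ 2 - 1) = (g * (a + 1)) * (a - 1) := by ring
      rw [this]
      exact mul_le_mul_of_nonneg_right hag1 ha1.le)
    (by
      rw [e3]
      have : g * (a * (a ^ 2 - 1)) = (g * a) * (a ^ 2 - 1) := by ring
      rw [this]
      exact mul_le_mul_of_nonneg_right hag ha2.le)
    (by
      rw [e4]
      have : g * (a * (a ^ 3 - a)) = (g * a) * (a ^ 3 - a) := by ring
      rw [this]
      exact mul_le_mul_of_nonneg_right hag p3.le)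
    (by
      rw [e5]
      have : g * (a * (a ^ 4 - a ^ 2)) = (g * a) * (a ^ 4 - a ^ 2) := by ring
      rw [this]
      exact mul_le_mul_of_nonneg_right hag p4.le)
    (by exact_mod_cast room)
  refine ⟨z0, ?_⟩
  intro z hz1 hz2
  obtain ⟨⟨m0, m0a, m0b⟩, ⟨m1, m1a, m1b⟩, ⟨m2, m2a, m2b⟩, ⟨m3, m3a, m3b⟩, ⟨m4, m4a, m4b⟩,
    ⟨m5, m5a, m5b⟩⟩ := hz0 z hz1 hz2
  -- X
  set X := (a * (a ^ 2 - 1) * z) % N with hX
  have dX : N ∣ X - a * (a ^ 2 - 1) * z := emod_dvd _ _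
  have wX : X0 ≤ X ∧ X < X0 + g := by
    apply win_emod (by omega) (by omega)
    refine ⟨m3, ?_, ?_⟩
    · rw [← e3]; exact m3a
    · rw [← e3]; exact m3b
  -- R
  set R := ((a ^ 2 - 1) * (z - e)) % N with hR
  have dR : N ∣ R - (a ^ 2 - 1) * (z - e) := emod_dvd _ _
  have wR : R0 ≤ R ∧ R < R0 + g := by
    apply win_emod (by omega) (by omega)
    refine ⟨m2, ?_, ?_⟩ <;> linarith
  -- I4
  set I4 := ((a - 1) * (z - e + a ^ 2 * v)) % N with hI4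
  have dI4 : N ∣ I4 - (a - 1) * (z - e + a ^ 2 * v) := emod_dvd _ _
  have wI4 : v4 ≤ I4 ∧ I4 < v4 + g := by
    apply win_emod (by omega) (by omega)
    refine ⟨m1, ?_, ?_⟩ <;> linarith
  -- I3
  set I3 := ((a + 1) * (a ^ 2 * v - z + e)) % N with hI3
  have dI3 : N ∣ I3 - (a + 1) * (a ^ 2 * v - z + e) := emod_dvd _ _
  have wI3 : v3 ≤ I3 ∧ I3 < v3 + h := by
    apply win_emod (by omega) (by omega)
    refine ⟨-(m0 + m1), ?_, ?_⟩ <;> linarith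
  -- I1, I2
  set I1 := ((a + 1) * (a * z - v + e - a * e)) % N with hI1
  have dI1 : N ∣ I1 - (a + 1) * (a * z - v + e - a * e) := emod_dvd _ _
  have l1 := Int.emod_nonneg ((a + 1) * (a * z - v + e - a * e)) hN0.ne'
  have l2 := Int.emod_lt_of_pos ((a + 1) * (a * z - v + e - a * e)) hN0
  rw [← hI1] at l1 l2
  set I2 := ((a - 1) * (v - e + a * z - a * e)) % N with hI2
  have dI2 : N ∣ I2 - (a - 1) * (v - e + a * z - a * e) := emod_dvd _ _
  have l3 := Int.emod_nonneg ((a - 1) * (v - e + a * z - a * e)) hN0.ne'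
  have l4 := Int.emod_lt_of_pos ((a - 1) * (v - e + a * z - a * e)) hN0
  rw [← hI2] at l3 l4
  obtain ⟨G1, G2, G3, G4⟩ := hgood X R I1 I2 I3 I4 wX.1 (by omega) wR.1 (by omega) wI3.1 wI3.2
    wI4.1 (by omega) l1 l2 l3 l4
    (by
      have : I1 + I3 - ((a + 1) * ((a ^ 2 - 1) * v + e) + R) =
        (I1 - (a + 1) * (a * z - v + e - a * e)) + (I3 - (a + 1) * (a ^ 2 * v - z + e)) -
        (R - (a ^ 2 - 1) * (z - e)) := by ring
      rw [this]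
      exact dvd_sub (dvd_add dI1 dI3) dR)
    (by
      have : I2 + I4 - ((a - 1) * ((a ^ 2 + 1) * v - e) + R) =
        (I2 - (a - 1) * (v - e + a * z - a * e)) + (I4 - (a - 1) * (z - e + a ^ 2 * v)) -
        (R - (a ^ 2 - 1) * (z - e)) := by ring
      rw [this]
      exact dvd_sub (dvd_add dI2 dI4) dR)
  have hrh : (r : ℤ) ≤ h := by omega
  refine ⟨?_, ?_, ?_, ?_, ?_, ?_, ?_, ?_, ?_, ?_, ?_⟩
  · change 0 ≤ X; omega
  · change X < n; omega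
  · change 0 ≤ R; omega
  · change R < n; omega
  · intro i w i1 i2 w1 w2 hq
    change i - w ≠ τ - X
    refine diff_blocked cm l1 l2 ?_ G1 i1 i2 w1 w2 hq
    have : (a - 1) * I1 - (X - τ - a * (a ^ 2 - 1) * e) =
      (a - 1) * (I1 - (a + 1) * (a * z - v + e - a * e)) - (X - a * (a ^ 2 - 1) * z) +
      (τ - (a ^ 2 - 1) * (v - e)) := by ring
    rw [this]
    exact dvd_add (dvd_sub (Dvd.dvd.mul_left dI1 _) dX) dτ
  · intro i w i1 i2 w1 w2 hq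
    change i + w ≠ τ + X
    refine sum_blocked cp l3 l4 ?_ G2 i1 i2 w1 w2 hq
    have : (a + 1) * I2 - (τ + X - a * (a ^ 2 - 1) * e) =
      (a + 1) * (I2 - (a - 1) * (v - e + a * z - a * e)) - (X - a * (a ^ 2 - 1) * z) -
      (τ - (a ^ 2 - 1) * (v - e)) := by ring
    rw [this]
    exact dvd_sub (dvd_sub (Dvd.dvd.mul_left dI2 _) dX) dτ
  · intro i w i1 i2 w1 w2 hq
    change i - w ≠ R - σ
    refine diff_blocked cm (by omega) (by omega) ?_ G3 i1 i2 w1 w2 hq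
    have : (a - 1) * I3 - (σ - R - a * (a ^ 2 - 1) * e) =
      (a - 1) * (I3 - (a + 1) * (a ^ 2 * v - z + e)) + (R - (a ^ 2 - 1) * (z - e)) -
      (σ - a * (a ^ 2 - 1) * (a * v + e)) := by ring
    rw [this]
    exact dvd_sub (dvd_add (Dvd.dvd.mul_left dI3 _) dR) dσ
  · intro i w i1 i2 w1 w2 hq
    change i + w ≠ R + σ
    refine sum_blocked cp (by omega) (by omega) ?_ G4 i1 i2 w1 w2 hq
    have : (a + 1) * I4 - (R + σ - a * (a ^ 2 - 1) * e) =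
      (a + 1) * (I4 - (a - 1) * (z - e + a ^ 2 * v)) - (R - (a ^ 2 - 1) * (z - e)) -
      (σ - a * (a ^ 2 - 1) * (a * v + e)) := by ring
    rw [this]
    exact dvd_sub (dvd_sub (Dvd.dvd.mul_left dI4 _) dR) dσ
  · have hj0 : (0 : ℤ) ≤ j * h := by positivity
    have hj1 : (j : ℤ) * h + h ≤ r * h := by nlinarith
    have hr1 : (r : ℤ) * h ≤ N := by
      have h0 := Int.emod_lt_of_pos ((a ^ 4 - a ^ 2) * e) hN0
      omega
    have := win_emod (N := N) (t := j * h) (g := g) (E := (a ^ 4 - a ^ 2) * (z - v + e)) hj0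
      (by omega) ⟨m4, by linarith, by linarith⟩
    change j * h ≤ ((a ^ 4 - a ^ 2) * (z - v + e)) % N ∧
      ((a ^ 4 - a ^ 2) * (z - v + e)) % N < (j + 1) * h
    refine ⟨this.1, ?_⟩
    have h2 := this.2
    linarith
  · have hj0 : (0 : ℤ) ≤ j * h := by positivity
    have hj1 : (j : ℤ) * h + h ≤ r * h := by nlinarith
    have hr1 : (r : ℤ) * h ≤ N := by
      have h0 := Int.emod_lt_of_pos ((a ^ 4 - a ^ 2) * e) hN0
      omega
    have := win_emod (N := N) (t := j * h) (g := 2 * g)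
      (E := (a ^ 5 - a ^ 3) * (a * v - z + 2 * e)) hj0
      (by omega) ⟨-m5, by linarith, by linarith⟩
    change j * h ≤ ((a ^ 5 - a ^ 3) * (a * v - z + 2 * e)) % N ∧
      ((a ^ 5 - a ^ 3) * (a * v - z + 2 * e)) % N < (j + 1) * h
    refine ⟨this.1, ?_⟩
    have h2 := this.2
    linarith
  · change (r : ℤ) * h ≤ ((a ^ 4 - a ^ 2) * (a * v - z + 2 * e)) % N
    set w := ((a ^ 4 - a ^ 2) * ((a - 1) * v + 3 * e)) % N with hw
    have hwN := Int.emod_lt_of_pos ((a ^ 4 - a ^ 2) * ((a - 1) * v + 3 * e)) hN0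
    rw [← hw] at hwN
    have hwd : N ∣ w - (a ^ 4 - a ^ 2) * ((a - 1) * v + 3 * e) := emod_dvd _ _
    obtain ⟨q, hq⟩ := hwd
    have hj0 : (0 : ℤ) ≤ j * h := by positivity
    have hj1 : (j : ℤ) * h + h ≤ r * h := by nlinarith
    have h71 : 2 * ((r : ℤ) * h) ≤ w := by linarith
    have := win_emod (N := N) (t := r * h) (g := N - r * h)
      (E := (a ^ 4 - a ^ 2) * (a * v - z + 2 * e)) (by positivity)
      (by omega) ⟨-m4 - q, by linarith, by linarith⟩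
    exact this.1

end H58.QN
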