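import Mathlib
import Pool.Agent.H58.QN.Cls

/-!
Greedy choice of the repairs of one class.
-/

namespace H58.QN

open Classical in
lemma greedy_choice {α : Type*} (r M : ℕ) (Z : ℕ → Finset α)
    (Bad : ℕ → α → ℕ → α → Prop) [Nonempty α]
    (hZ : ∀ j < r, M * r < (Z j).card)
    (hB : ∀ i z j, i < j → j < r → z ∈ Z i → ((Z j).filter (fun w => Bad i z j w)).card ≤ M) :
    ∃ f : ℕ → α, (∀ j < r, f j ∈ Z j) ∧ ∀ i j, i < j → j < r → ¬ Bad i (f i) j (f j) := by
  have key : ∀ s ≤ r, ∃ f : ℕ → α, (∀ j < s, f j ∈ Z j) ∧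
      ∀ i j, i < j → j < s → ¬ Bad i (f i) j (f j) := by
    intro s
    induction s with
    | zero => intro _; exact ⟨fun _ => Classical.arbitrary α, by omega, by omega⟩
    | succ s ih =>
      intro hs
      obtain ⟨f, h1, h2⟩ := ih (by omega)
      have h3 : ∃ w ∈ Z s, ∀ i < s, ¬ Bad i (f i) s w := by
        by_contra hno
        push Not at hno
        have h4 : Z s ⊆ (Finset.range s).biUnion
            (fun i => (Z s).filter (fun w => Bad i (f i) s w)) := by
          intro w hw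
          obtain ⟨i, hi, hb⟩ := hno w hw
          exact Finset.mem_biUnion.2 ⟨i, Finset.mem_range.2 hi, Finset.mem_filter.2 ⟨hw, hb⟩⟩
        have h5 := (Finset.card_le_card h4).trans Finset.card_biUnion_le
        have h6 : ∑ i ∈ Finset.range s, ((Z s).filter (fun w => Bad i (f i) s w)).card
            ≤ ∑ _i ∈ Finset.range s, M := by
          apply Finset.sum_le_sum
          intro i hi
          rw [Finset.mem_range] at hi
          exact hB i (f i) s hi (by omega) (h1 i hi)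
        rw [Finset.sum_const, Finset.card_range, smul_eq_mul] at h6
        have h7 := hZ s (by omega)
        have h8 : s * M ≤ M * r := by nlinarith
        omega
      obtain ⟨w, hw, hb⟩ := h3
      refine ⟨Function.update f s w, ?_, ?_⟩
      · intro j hj
        rcases Nat.lt_succ_iff_lt_or_eq.1 hj with h | h
        · rw [Function.update_of_ne (by omega)]; exact h1 j h
        · subst h; rw [Function.update_self]; exact hw
      · intro i j hij hj
        rcases Nat.lt_succ_iff_lt_or_eq.1 hj with h | h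
        · rw [Function.update_of_ne (by omega), Function.update_of_ne (by omega)]
          exact h2 i j hij h
        · subst h
          rw [Function.update_self, Function.update_of_ne (by omega)]
          exact hb i hij
  exact key r le_rfl

lemma unit_uniq {N u w z z' z0 K : ℤ} (hu : IsCoprime u N) (hK : K ≤ N)
    (h1 : z0 ≤ z) (h2 : z < z0 + K) (h1' : z0 ≤ z') (h2' : z' < z0 + K)
    (h : N ∣ u * z - w) (h' : N ∣ u * z' - w) : z = z' := by
  have h3 : N ∣ u * (z - z') := by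
    have : u * (z - z') = (u * z - w) - (u * z' - w) := by ring
    rw [this]; exact dvd_sub h h'
  have h4 : N ∣ z - z' := (hu.symm).dvd_of_dvd_mul_left h3
  have := Int.eq_zero_of_abs_lt_dvd h4 (by rw [abs_lt]; constructor <;> omega)
  omega

/-- the conflict relation between the repair `z'` of index `i` and the repair `z` of index `j` -/
def Bad (P : Par) (e : ℤ) (i : ℕ) (z' : ℤ) (j : ℕ) (z : ℤ) : Prop :=
  P.xx z ∈ ({P.xx z', P.tau e j - P.tau e i + P.xx z', P.tau e i + P.xx z' - P.tau e j,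
    P.tau e j - P.rr e z' + P.sig e i, P.rr e z' + P.sig e i - P.tau e j} : Finset ℤ) ∨
  P.rr e z ∈ ({P.tau e i - P.xx z' + P.sig e j, P.tau e i + P.xx z' - P.sig e j,
    P.rr e z' - P.sig e i + P.sig e j, P.rr e z' + P.sig e i - P.sig e j} : Finset ℤ)

lemma cop_D (P : Par) : IsCoprime (P.a * (P.a ^ 2 - 1)) P.N := by
  have : P.a * (P.a ^ 2 - 1) = P.a * ((P.a - 1) * (P.a + 1)) := by ring
  rw [this]
  exact P.ca.mul_left (P.cm.mul_left P.cp)

lemma cop_b (P : Par) : IsCoprime (P.a ^ 2 - 1) P.N := by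
  have : P.a ^ 2 - 1 = (P.a - 1) * (P.a + 1) := by ring
  rw [this]
  exact P.cm.mul_left P.cp

lemma N_pos (P : Par) : 0 < P.N := by
  have := P.hg; have := P.hN; omega

lemma a_ge (P : Par) : 3 ≤ P.a := by
  have h1 := P.hg
  have h2 := P.hN
  have h3 := P.ha
  by_contra hlt
  push Not at hlt
  nlinarith

lemma run_le (P : Par) : ((9 * P.r + 4 : ℕ) : ℤ) ≤ P.N := by
  have h1 := P.room
  have h2 := a_ge P
  have h3 := P.hN
  have h4 := P.hg
  have h5 : 1 ≤ P.a ^ 5 - P.a ^ 3 := by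
    have : P.a ^ 5 - P.a ^ 3 = P.a ^ 3 * (P.a ^ 2 - 1) := by ring
    rw [this]
    have h6 : 1 ≤ P.a ^ 3 := one_le_pow₀ (by omega)
    have h7 : 1 ≤ P.a ^ 2 - 1 := by nlinarith
    nlinarith
  have h8 : (0 : ℤ) ≤ ((9 * P.r + 4 : ℕ) : ℤ) + 1 := by positivity
  nlinarith

open Classical in
lemma bad_card (P : Par) (e : ℤ) (i : ℕ) (z' : ℤ) (j : ℕ) (z0 : ℤ) (S : Finset ℤ)
    (hS : ∀ z ∈ S, z0 ≤ z ∧ z < z0 + (9 * P.r + 4 : ℕ)) :
    (S.filter (fun z => Bad P e i z' j z)).card ≤ 9 := by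
  have hrun := run_le P
  set A : Finset ℤ := {P.xx z', P.tau e j - P.tau e i + P.xx z', P.tau e i + P.xx z' - P.tau e j,
    P.tau e j - P.rr e z' + P.sig e i, P.rr e z' + P.sig e i - P.tau e j} with hA
  set B : Finset ℤ := {P.tau e i - P.xx z' + P.sig e j, P.tau e i + P.xx z' - P.sig e j,
    P.rr e z' - P.sig e i + P.sig e j, P.rr e z' + P.sig e i - P.sig e j} with hB
  have h1 : S.filter (fun z => Bad P e i z' j z) ⊆
      S.filter (fun z => P.xx z ∈ A) ∪ S.filter (fun z => P.rr e z ∈ B) := by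
    intro z hz
    rw [Finset.mem_filter] at hz
    rcases hz.2 with h | h
    · exact Finset.mem_union_left _ (Finset.mem_filter.2 ⟨hz.1, h⟩)
    · exact Finset.mem_union_right _ (Finset.mem_filter.2 ⟨hz.1, h⟩)
  have hA5 : A.card ≤ 5 := Finset.card_le_five
  have hB4 : B.card ≤ 4 := Finset.card_le_four
  have h2 : (S.filter (fun z => P.xx z ∈ A)).card ≤ A.card := by
    apply Finset.card_le_card_of_injOn P.xx
    · intro z hz
      exact (Finset.mem_filter.1 (Finset.mem_coe.1 hz)).2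
    · intro z hz w hw hzw
      have hz1 := hS z (Finset.mem_filter.1 (Finset.mem_coe.1 hz)).1
      have hw1 := hS w (Finset.mem_filter.1 (Finset.mem_coe.1 hw)).1
      have d1 : P.N ∣ P.xx z - P.a * (P.a ^ 2 - 1) * z := emod_dvd _ _
      have d2 : P.N ∣ P.xx w - P.a * (P.a ^ 2 - 1) * w := emod_dvd _ _
      refine unit_uniq (w := P.xx z) (cop_D P) hrun hz1.1 hz1.2 hw1.1 hw1.2 ?_ ?_
      · rw [← neg_sub]; exact (Int.dvd_neg).2 d1
      · rw [hzw, ← neg_sub]; exact (Int.dvd_neg).2 d2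
  have h3 : (S.filter (fun z => P.rr e z ∈ B)).card ≤ B.card := by
    apply Finset.card_le_card_of_injOn (P.rr e)
    · intro z hz
      exact (Finset.mem_filter.1 (Finset.mem_coe.1 hz)).2
    · intro z hz w hw hzw
      have hz1 := hS z (Finset.mem_filter.1 (Finset.mem_coe.1 hz)).1
      have hw1 := hS w (Finset.mem_filter.1 (Finset.mem_coe.1 hw)).1
      have d1 : P.N ∣ P.rr e z - (P.a ^ 2 - 1) * (z - e) := emod_dvd _ _
      have d2 : P.N ∣ P.rr e w - (P.a ^ 2 - 1) * (w - e) := emod_dvd _ _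
      refine unit_uniq (w := P.rr e z + (P.a ^ 2 - 1) * e) (cop_b P) hrun
        hz1.1 hz1.2 hw1.1 hw1.2 ?_ ?_
      · have : (P.a ^ 2 - 1) * z - (P.rr e z + (P.a ^ 2 - 1) * e) =
          -(P.rr e z - (P.a ^ 2 - 1) * (z - e)) := by ring
        rw [this]; exact (Int.dvd_neg).2 d1
      · rw [hzw]
        have : (P.a ^ 2 - 1) * w - (P.rr e w + (P.a ^ 2 - 1) * e) =
          -(P.rr e w - (P.a ^ 2 - 1) * (w - e)) := by ring
        rw [this]; exact (Int.dvd_neg).2 d2
  have h4 := (Finset.card_le_card h1).trans (Finset.card_union_le _ _)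
  omega

/-- the two own conflicts -/
def Own (P : Par) (e : ℤ) (j : ℕ) (z : ℤ) : Prop :=
  P.tau e j - P.xx z = P.rr e z - P.sig e j ∨ P.tau e j + P.xx z = P.rr e z + P.sig e j

open Classical in
lemma own_card (P : Par) (e : ℤ) (j : ℕ) (z0 : ℤ) (S : Finset ℤ)
    (hS : ∀ z ∈ S, z0 ≤ z ∧ z < z0 + (9 * P.r + 4 : ℕ)) :
    (S.filter (fun z => Own P e j z)).card ≤ 2 := by
  have hrun := run_le P
  have h1 : S.filter (fun z => Own P e j z) ⊆
      S.filter (fun z => P.tau e j - P.xx z = P.rr e z - P.sig e j) ∪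
      S.filter (fun z => P.tau e j + P.xx z = P.rr e z + P.sig e j) := by
    intro z hz
    rw [Finset.mem_filter] at hz
    rcases hz.2 with h | h
    · exact Finset.mem_union_left _ (Finset.mem_filter.2 ⟨hz.1, h⟩)
    · exact Finset.mem_union_right _ (Finset.mem_filter.2 ⟨hz.1, h⟩)
  have h2 : (S.filter (fun z => P.tau e j - P.xx z = P.rr e z - P.sig e j)).card ≤ 1 := by
    rw [Finset.card_le_one]
    intro z hz w hw
    rw [Finset.mem_filter] at hz hw
    have d1 : P.N ∣ P.xx z - P.a * (P.a ^ 2 - 1) * z := emod_dvd _ _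
    have d2 : P.N ∣ P.xx w - P.a * (P.a ^ 2 - 1) * w := emod_dvd _ _
    have d3 : P.N ∣ P.rr e z - (P.a ^ 2 - 1) * (z - e) := emod_dvd _ _
    have d4 : P.N ∣ P.rr e w - (P.a ^ 2 - 1) * (w - e) := emod_dvd _ _
    have hu : IsCoprime ((P.a ^ 2 - 1) * (P.a + 1)) P.N := (cop_b P).mul_left P.cp
    refine unit_uniq (w := P.tau e j + P.sig e j + (P.a ^ 2 - 1) * e) hu hrun
      (hS z hz.1).1 (hS z hz.1).2 (hS w hw.1).1 (hS w hw.1).2 ?_ ?_
    · have : (P.a ^ 2 - 1) * (P.a + 1) * z - (P.tau e j + P.sig e j + (P.a ^ 2 - 1) * e) =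
        -(P.xx z - P.a * (P.a ^ 2 - 1) * z) - (P.rr e z - (P.a ^ 2 - 1) * (z - e)) -
          ((P.tau e j - P.xx z) - (P.rr e z - P.sig e j)) := by ring
      rw [this, hz.2, sub_self, sub_zero]
      exact dvd_sub ((Int.dvd_neg).2 d1) d3
    · have : (P.a ^ 2 - 1) * (P.a + 1) * w - (P.tau e j + P.sig e j + (P.a ^ 2 - 1) * e) =
        -(P.xx w - P.a * (P.a ^ 2 - 1) * w) - (P.rr e w - (P.a ^ 2 - 1) * (w - e)) -
          ((P.tau e j - P.xx w) - (P.rr e w - P.sig e j)) := by ring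
      rw [this, hw.2, sub_self, sub_zero]
      exact dvd_sub ((Int.dvd_neg).2 d2) d4
  have h3 : (S.filter (fun z => P.tau e j + P.xx z = P.rr e z + P.sig e j)).card ≤ 1 := by
    rw [Finset.card_le_one]
    intro z hz w hw
    rw [Finset.mem_filter] at hz hw
    have d1 : P.N ∣ P.xx z - P.a * (P.a ^ 2 - 1) * z := emod_dvd _ _
    have d2 : P.N ∣ P.xx w - P.a * (P.a ^ 2 - 1) * w := emod_dvd _ _
    have d3 : P.N ∣ P.rr e z - (P.a ^ 2 - 1) * (z - e) := emod_dvd _ _
    have d4 : P.N ∣ P.rr e w - (P.a ^ 2 - 1) * (w - e) := emod_dvd _ _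
    have hu : IsCoprime ((P.a ^ 2 - 1) * (P.a - 1)) P.N := (cop_b P).mul_left P.cm
    refine unit_uniq (w := P.sig e j - P.tau e j - (P.a ^ 2 - 1) * e) hu hrun
      (hS z hz.1).1 (hS z hz.1).2 (hS w hw.1).1 (hS w hw.1).2 ?_ ?_
    · have : (P.a ^ 2 - 1) * (P.a - 1) * z - (P.sig e j - P.tau e j - (P.a ^ 2 - 1) * e) =
        -(P.xx z - P.a * (P.a ^ 2 - 1) * z) + (P.rr e z - (P.a ^ 2 - 1) * (z - e)) +
          ((P.tau e j + P.xx z) - (P.rr e z + P.sig e j)) := by ring
      rw [this, hz.2, sub_self, add_zero]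
      exact dvd_add ((Int.dvd_neg).2 d1) d3
    · have : (P.a ^ 2 - 1) * (P.a - 1) * w - (P.sig e j - P.tau e j - (P.a ^ 2 - 1) * e) =
        -(P.xx w - P.a * (P.a ^ 2 - 1) * w) + (P.rr e w - (P.a ^ 2 - 1) * (w - e)) +
          ((P.tau e j + P.xx w) - (P.rr e w + P.sig e j)) := by ring
      rw [this, hw.2, sub_self, add_zero]
      exact dvd_add ((Int.dvd_neg).2 d2) d4
  have h4 := (Finset.card_le_card h1).trans (Finset.card_union_le _ _)
  omega

/-- the repairs of one class -/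
structure Repair (P : Par) (e : ℤ) (f : ℕ → ℤ) : Prop where
  cand : ∀ j < P.r, Cand P e j (f j)
  own : ∀ j < P.r, ¬ Own P e j (f j)
  pair : ∀ i j, i < j → j < P.r → ¬ Bad P e i (f i) j (f j)

open Classical in
lemma exists_repair (P : Par) {e : ℤ} (hk : P.Kept e) : ∃ f : ℕ → ℤ, Repair P e f := by
  have hc : ∀ j, ∃ z0 : ℤ, j < P.r → ∀ z : ℤ, z0 ≤ z → z < z0 + (9 * P.r + 4 : ℕ) →
      Cand P e j z := by
    intro j
    by_cases hj : j < P.r
    · obtain ⟨z0, h⟩ := exists_cand P hk hj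
      exact ⟨z0, fun _ => h⟩
    · exact ⟨0, fun h => absurd h hj⟩
  choose Z0 hZ0 using hc
  set Z : ℕ → Finset ℤ := fun j =>
    (Finset.Ico (Z0 j) (Z0 j + (9 * P.r + 4 : ℕ))).filter (fun z => ¬ Own P e j z) with hZ
  have hZm : ∀ j, ∀ z ∈ Z j, Z0 j ≤ z ∧ z < Z0 j + (9 * P.r + 4 : ℕ) := by
    intro j z hz
    have := (Finset.mem_filter.1 hz).1
    rwa [Finset.mem_Ico] at this
  obtain ⟨f, h1, h2⟩ := greedy_choice P.r 9 Z (fun i z' j z => Bad P e i z' j z)
    (by
      intro j hj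
      have h3 := Finset.card_filter_add_card_filter_not (s := Finset.Ico (Z0 j) (Z0 j + (9 * P.r + 4 : ℕ)))
        (fun z => Own P e j z)
      have h4 := own_card P e j (Z0 j) (Finset.Ico (Z0 j) (Z0 j + (9 * P.r + 4 : ℕ)))
        (fun z hz => Finset.mem_Ico.1 hz)
      rw [Int.card_Ico] at h3
      have h5 : (Z0 j + (9 * P.r + 4 : ℕ) - Z0 j).toNat = 9 * P.r + 4 := by
        rw [add_sub_cancel_left, Int.toNat_natCast]
      rw [h5] at h3
      have h6 : (Z j).card = ((Finset.Ico (Z0 j) (Z0 j + (9 * P.r + 4 : ℕ))).filter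
        (fun z => ¬ Own P e j z)).card := rfl
      rw [h6]
      omega)
    (by
      intro i z j _ _ _
      exact bad_card P e i z j (Z0 j) (Z j) (hZm j))
  refine ⟨f, ?_, ?_, ?_⟩
  · intro j hj
    have := hZm j (f j) (h1 j hj)
    exact hZ0 j hj _ this.1 this.2
  · intro j hj
    exact (Finset.mem_filter.1 (h1 j hj)).2
  · intro i j hij hj
    exact h2 i j hij hj

end H58.QN
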