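import Mathlib
import Pool.Agent.H58.QN.Fam

/-!
The repaired class: cells, non-attacking property, disjointness.
-/

namespace H58.QN

/-- the cells of the repaired class `e` -/
def Cell (P : Par) (e : ℤ) (f : ℕ → ℤ) (i v : ℤ) : Prop :=
  (0 ≤ i ∧ i < P.n ∧ 0 ≤ v ∧ v < P.n ∧ P.N ∣ v - (P.a * i + P.a * (P.a ^ 2 - 1) * e) ∧
    ∀ j < P.r, i ≠ P.rr e (f j)) ∨
  (∃ j < P.r, i = P.tau e j ∧ v = P.xx (f j)) ∨
  (∃ j < P.r, i = P.rr e (f j) ∧ v = P.sig e j)

/-- the two cells do not attack each other -/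
def NonAtt (i v i' v' : ℤ) : Prop := i ≠ i' ∧ v ≠ v' ∧ i - v ≠ i' - v' ∧ i + v ≠ i' + v'

lemma NonAtt.symm {i v i' v' : ℤ} (h : NonAtt i v i' v') : NonAtt i' v' i v :=
  ⟨h.1.symm, h.2.1.symm, h.2.2.1.symm, h.2.2.2.symm⟩

section facts

variable (P : Par)

lemma n_le : P.n ≤ P.N := by
  have := P.hn; have := Int.natCast_nonneg P.r; omega

lemma tau_eq (e : ℤ) (j : ℕ) :
    P.N ∣ (P.n + j) - (P.a * P.tau e j + P.a * (P.a ^ 2 - 1) * e) := by
  have h1 : P.N ∣ P.tau e j - (P.a ^ 2 - 1) * (P.ν j - e) := emod_dvd _ _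
  have h2 := P.hν j
  have : (P.n + j) - (P.a * P.tau e j + P.a * (P.a ^ 2 - 1) * e) =
    -(P.a * (P.a ^ 2 - 1) * P.ν j - (P.n + j)) -
      P.a * (P.tau e j - (P.a ^ 2 - 1) * (P.ν j - e)) := by ring
  rw [this]
  exact dvd_sub ((Int.dvd_neg).2 h2) (Dvd.dvd.mul_left h1 _)

lemma sig_eq (e : ℤ) (j : ℕ) :
    P.N ∣ P.sig e j - (P.a * (P.n + j) + P.a * (P.a ^ 2 - 1) * e) := by
  have h1 : P.N ∣ P.sig e j - P.a * (P.a ^ 2 - 1) * (P.a * P.ν j + e) := emod_dvd _ _
  have h2 := P.hν j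
  have : P.sig e j - (P.a * (P.n + j) + P.a * (P.a ^ 2 - 1) * e) =
    (P.sig e j - P.a * (P.a ^ 2 - 1) * (P.a * P.ν j + e)) +
      P.a * (P.a * (P.a ^ 2 - 1) * P.ν j - (P.n + j)) := by ring
  rw [this]
  exact dvd_add h1 (Dvd.dvd.mul_left h2 _)

lemma xx_eq (e z : ℤ) :
    P.N ∣ P.xx z - (P.a * P.rr e z + P.a * (P.a ^ 2 - 1) * e) := by
  have h1 : P.N ∣ P.xx z - P.a * (P.a ^ 2 - 1) * z := emod_dvd _ _
  have h2 : P.N ∣ P.rr e z - (P.a ^ 2 - 1) * (z - e) := emod_dvd _ _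
  have : P.xx z - (P.a * P.rr e z + P.a * (P.a ^ 2 - 1) * e) =
    (P.xx z - P.a * (P.a ^ 2 - 1) * z) - P.a * (P.rr e z - (P.a ^ 2 - 1) * (z - e)) := by ring
  rw [this]
  exact dvd_sub h1 (Dvd.dvd.mul_left h2 _)

/-- label of the cell `(tau, xx)` -/
lemma lab1 (e : ℤ) (j : ℕ) (z : ℤ) :
    P.N ∣ P.xx z - (P.a * P.tau e j + P.a * (P.a ^ 2 - 1) * P.g1 e j z) := by
  have h1 : P.N ∣ P.xx z - P.a * (P.a ^ 2 - 1) * z := emod_dvd _ _
  have h2 : P.N ∣ P.tau e j - (P.a ^ 2 - 1) * (P.ν j - e) := emod_dvd _ _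
  have : P.xx z - (P.a * P.tau e j + P.a * (P.a ^ 2 - 1) * P.g1 e j z) =
    (P.xx z - P.a * (P.a ^ 2 - 1) * z) - P.a * (P.tau e j - (P.a ^ 2 - 1) * (P.ν j - e)) := by
    unfold Par.g1; ring
  rw [this]
  exact dvd_sub h1 (Dvd.dvd.mul_left h2 _)

/-- label of the cell `(rr, sig)` -/
lemma lab2 (e : ℤ) (j : ℕ) (z : ℤ) :
    P.N ∣ P.sig e j - (P.a * P.rr e z + P.a * (P.a ^ 2 - 1) * P.g2 e j z) := by
  have h1 : P.N ∣ P.sig e j - P.a * (P.a ^ 2 - 1) * (P.a * P.ν j + e) := emod_dvd _ _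
  have h2 : P.N ∣ P.rr e z - (P.a ^ 2 - 1) * (z - e) := emod_dvd _ _
  have : P.sig e j - (P.a * P.rr e z + P.a * (P.a ^ 2 - 1) * P.g2 e j z) =
    (P.sig e j - P.a * (P.a ^ 2 - 1) * (P.a * P.ν j + e)) -
      P.a * (P.rr e z - (P.a ^ 2 - 1) * (z - e)) := by
    unfold Par.g2; ring
  rw [this]
  exact dvd_sub h1 (Dvd.dvd.mul_left h2 _)

variable {P}

/-- cancellation of `a` -/
lemma cancel_a {c v i i' : ℤ} (h : P.N ∣ v - (P.a * i + c)) (h' : P.N ∣ v - (P.a * i' + c))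
    (h0 : 0 ≤ i) (h1 : i < P.N) (h0' : 0 ≤ i') (h1' : i' < P.N) : i = i' := by
  have h2 : P.N ∣ P.a * (i - i') := by
    have : P.a * (i - i') = (v - (P.a * i' + c)) - (v - (P.a * i + c)) := by ring
    rw [this]; exact dvd_sub h' h
  have h3 : P.N ∣ i - i' := (P.ca.symm).dvd_of_dvd_mul_left h2
  exact eq_of_dvd_sub h0 h1 h0' h1' h3

lemma cancel_v {c v v' : ℤ} (h : P.N ∣ v - c) (h' : P.N ∣ v' - c)
    (h0 : 0 ≤ v) (h1 : v < P.N) (h0' : 0 ≤ v') (h1' : v' < P.N) : v = v' := by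
  apply eq_of_dvd_sub h0 h1 h0' h1'
  have : v - v' = (v - c) - (v' - c) := by ring
  rw [this]; exact dvd_sub h h'

lemma tau_range {e : ℤ} (hk : P.Kept e) {j : ℕ} (hj : j < P.r) :
    0 ≤ P.tau e j ∧ P.tau e j < P.n := by
  have h := hk.k3 j hj
  have hg := P.hg
  have hr := P.hr
  have hn := P.hn
  unfold Par.tau
  omega

lemma sig_range {e : ℤ} (hk : P.Kept e) {j : ℕ} (hj : j < P.r) :
    0 ≤ P.sig e j ∧ P.sig e j < P.n := by
  have h := hk.k4 j hj
  have hg := P.hg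
  have hr := P.hr
  have hn := P.hn
  unfold Par.sig
  omega

lemma cell_range {e : ℤ} {f : ℕ → ℤ} (hk : P.Kept e) (hf : Repair P e f) {i v : ℤ}
    (h : Cell P e f i v) : 0 ≤ i ∧ i < P.n ∧ 0 ≤ v ∧ v < P.n := by
  rcases h with h | ⟨j, hj, rfl, rfl⟩ | ⟨j, hj, rfl, rfl⟩
  · exact ⟨h.1, h.2.1, h.2.2.1, h.2.2.2.1⟩
  · have h1 := tau_range hk hj
    have h2 := hf.cand j hj
    exact ⟨h1.1, h1.2, h2.x0, h2.x1⟩
  · have h1 := sig_range hk hj
    have h2 := hf.cand j hj
    exact ⟨h2.r0, h2.r1, h1.1, h1.2⟩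

/-- every row has a cell -/
lemma cell_total {e : ℤ} {f : ℕ → ℤ} (hk : P.Kept e) {i : ℤ}
    (h0 : 0 ≤ i) (h1 : i < P.n) : ∃ v, Cell P e f i v := by
  have hN0 := N_pos P
  have hn := P.hn
  set v := (P.a * i + P.a * (P.a ^ 2 - 1) * e) % P.N with hv
  have v0 := Int.emod_nonneg (P.a * i + P.a * (P.a ^ 2 - 1) * e) hN0.ne'
  have v1 := Int.emod_lt_of_pos (P.a * i + P.a * (P.a ^ 2 - 1) * e) hN0
  have vd : P.N ∣ v - (P.a * i + P.a * (P.a ^ 2 - 1) * e) := emod_dvd _ _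
  rw [← hv] at v0 v1
  rcases lt_or_ge v P.n with h | h
  · by_cases hex : ∃ j < P.r, i = P.rr e (f j)
    · obtain ⟨j, hj, hi⟩ := hex
      exact ⟨P.sig e j, Or.inr (Or.inr ⟨j, hj, hi, rfl⟩)⟩
    · push Not at hex
      exact ⟨v, Or.inl ⟨h0, h1, v0, h, vd, hex⟩⟩
  · obtain ⟨j, hj⟩ := Int.eq_ofNat_of_zero_le (sub_nonneg.2 h)
    have hjr : j < P.r := by
      have : (j : ℤ) < P.r := by omega
      exact_mod_cast this
    refine ⟨P.xx (f j), Or.inr (Or.inl ⟨j, hjr, ?_, rfl⟩)⟩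
    have h2 := tau_eq P e j
    have h3 : P.n + j = v := by omega
    rw [h3] at h2
    have h4 := tau_range hk hjr
    exact cancel_a vd h2 h0 (by omega) h4.1 (by omega)

/-- the cells do not attack each other -/
lemma cell_nonatt {e : ℤ} {f : ℕ → ℤ} (hk : P.Kept e) (hf : Repair P e f) {i v i' v' : ℤ}
    (h : Cell P e f i v) (h' : Cell P e f i' v') (hne : i ≠ i' ∨ v ≠ v') : NonAtt i v i' v' := by
  have hN0 := N_pos P
  have hn := P.hn
  have hnN := n_le P
  have hn0 : 0 ≤ P.n := by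
    have := P.hg; have := P.hN; have := P.hr; omega
  -- old against old
  have oo : ∀ {i v i' v' : ℤ}, (0 ≤ i ∧ i < P.n ∧ 0 ≤ v ∧ v < P.n ∧
      P.N ∣ v - (P.a * i + P.a * (P.a ^ 2 - 1) * e)) →
      (0 ≤ i' ∧ i' < P.n ∧ 0 ≤ v' ∧ v' < P.n ∧
      P.N ∣ v' - (P.a * i' + P.a * (P.a ^ 2 - 1) * e)) → (i ≠ i' ∨ v ≠ v') →
      NonAtt i v i' v' := by
    intro i v i' v' ⟨a1, a2, a3, a4, a5⟩ ⟨b1, b2, b3, b4, b5⟩ hne
    have hi : i ≠ i' := by
      intro h
      subst h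
      have := cancel_v a5 b5 a3 (by omega) b3 (by omega)
      omega
    refine ⟨hi, ?_, ?_, ?_⟩
    · intro h
      rw [← h] at b5
      exact hi (cancel_a a5 b5 a1 (by omega) b1 (by omega))
    · intro h
      apply hi
      have h2 : P.N ∣ (P.a - 1) * (i - i') := by
        have : (P.a - 1) * (i - i') = (v' - (P.a * i' + P.a * (P.a ^ 2 - 1) * e)) -
          (v - (P.a * i + P.a * (P.a ^ 2 - 1) * e)) - ((i - v) - (i' - v')) := by ring
        rw [this, h, sub_self, sub_zero]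
        exact dvd_sub b5 a5
      exact eq_of_dvd_sub a1 (by omega) b1 (by omega) ((P.cm.symm).dvd_of_dvd_mul_left h2)
    · intro h
      apply hi
      have h2 : P.N ∣ (P.a + 1) * (i - i') := by
        have : (P.a + 1) * (i - i') = (v' - (P.a * i' + P.a * (P.a ^ 2 - 1) * e)) -
          (v - (P.a * i + P.a * (P.a ^ 2 - 1) * e)) + ((i + v) - (i' + v')) := by ring
        rw [this, h, sub_self, add_zero]
        exact dvd_sub b5 a5
      exact eq_of_dvd_sub a1 (by omega) b1 (by omega) ((P.cp.symm).dvd_of_dvd_mul_left h2)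
  -- old against first new cell
  have o1 : ∀ {i v : ℤ} {j : ℕ}, (0 ≤ i ∧ i < P.n ∧ 0 ≤ v ∧ v < P.n ∧
      P.N ∣ v - (P.a * i + P.a * (P.a ^ 2 - 1) * e) ∧ ∀ j < P.r, i ≠ P.rr e (f j)) → j < P.r →
      NonAtt i v (P.tau e j) (P.xx (f j)) := by
    intro i v j ⟨a1, a2, a3, a4, a5, a6⟩ hj
    have hjr : (j : ℤ) < P.r := by exact_mod_cast hj
    have hc := hf.cand j hj
    have ht := tau_range hk hj
    refine ⟨?_, ?_, ?_, ?_⟩
    · intro h
      rw [h] at a5
      have := cancel_v a5 (tau_eq P e j) a3 (by omega) (by omega) (by omega)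
      omega
    · intro h
      rw [h] at a5
      have h3 := hc.r0
      have h4 := hc.r1
      have := cancel_a a5 (xx_eq P e (f j)) a1 (by omega) h3 (by omega)
      exact a6 j hj this
    · exact hc.d1 i v a1 (by omega) a3 (by omega) a5
    · exact hc.e1 i v a1 (by omega) a3 (by omega) a5
  -- old against second new cell
  have o2 : ∀ {i v : ℤ} {j : ℕ}, (0 ≤ i ∧ i < P.n ∧ 0 ≤ v ∧ v < P.n ∧
      P.N ∣ v - (P.a * i + P.a * (P.a ^ 2 - 1) * e) ∧ ∀ j < P.r, i ≠ P.rr e (f j)) → j < P.r →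
      NonAtt i v (P.rr e (f j)) (P.sig e j) := by
    intro i v j ⟨a1, a2, a3, a4, a5, a6⟩ hj
    have hjr : (j : ℤ) < P.r := by exact_mod_cast hj
    have hc := hf.cand j hj
    refine ⟨a6 j hj, ?_, ?_, ?_⟩
    · intro h
      rw [h] at a5
      have := cancel_a a5 (sig_eq P e j) a1 (by omega) (by omega) (by omega)
      omega
    · exact hc.d2 i v a1 (by omega) a3 (by omega) a5
    · exact hc.e2 i v a1 (by omega) a3 (by omega) a5
  -- first new against first new, i < j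
  have n11 : ∀ {j j' : ℕ}, j < j' → j' < P.r →
      NonAtt (P.tau e j) (P.xx (f j)) (P.tau e j') (P.xx (f j')) := by
    intro j j' hjj hj'
    have hjr : (j : ℤ) < P.r := by exact_mod_cast (hjj.trans hj')
    have hjr' : (j' : ℤ) < P.r := by exact_mod_cast hj'
    have hb := hf.pair j j' hjj hj'
    unfold Bad at hb
    simp only [Finset.mem_insert, Finset.mem_singleton, not_or] at hb
    obtain ⟨⟨b1, b2, b3, b4, b5⟩, c1, c2, c3, c4⟩ := hb
    refine ⟨?_, ?_, ?_, ?_⟩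
    · intro h
      have h1 := tau_eq P e j
      have h2 := tau_eq P e j'
      rw [h] at h1
      have := cancel_v h1 h2 (by omega) (by omega) (by omega) (by omega)
      omega
    · omega
    · omega
    · omega
  -- second new against second new
  have n22 : ∀ {j j' : ℕ}, j < j' → j' < P.r →
      NonAtt (P.rr e (f j)) (P.sig e j) (P.rr e (f j')) (P.sig e j') := by
    intro j j' hjj hj'
    have hjr : (j : ℤ) < P.r := by exact_mod_cast (hjj.trans hj')
    have hjr' : (j' : ℤ) < P.r := by exact_mod_cast hj'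
    have hb := hf.pair j j' hjj hj'
    have hc := hf.cand j (hjj.trans hj')
    have hc' := hf.cand j' hj'
    unfold Bad at hb
    simp only [Finset.mem_insert, Finset.mem_singleton, not_or] at hb
    obtain ⟨⟨b1, b2, b3, b4, b5⟩, c1, c2, c3, c4⟩ := hb
    refine ⟨?_, ?_, ?_, ?_⟩
    · intro h
      have h1 := xx_eq P e (f j)
      have h2 := xx_eq P e (f j')
      rw [h] at h1
      have x0 := hc.x0
      have x1 := hc.x1
      have x0' := hc'.x0
      have x1' := hc'.x1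
      have := cancel_v h1 h2 x0 (by omega) x0' (by omega)
      exact b1 this.symm
    · intro h
      have h1 := sig_eq P e j
      have h2 := sig_eq P e j'
      rw [h] at h1
      have := cancel_a h1 h2 (by omega) (by omega) (by omega) (by omega)
      omega
    · omega
    · omega
  -- first new against second new
  have n12 : ∀ {j j' : ℕ}, j < P.r → j' < P.r →
      NonAtt (P.tau e j) (P.xx (f j)) (P.rr e (f j')) (P.sig e j') := by
    intro j j' hj hj'
    have hjr : (j : ℤ) < P.r := by exact_mod_cast hj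
    have hjr' : (j' : ℤ) < P.r := by exact_mod_cast hj'
    have hc := hf.cand j hj
    have hc' := hf.cand j' hj'
    have hd : P.tau e j - P.xx (f j) ≠ P.rr e (f j') - P.sig e j' ∧
        P.tau e j + P.xx (f j) ≠ P.rr e (f j') + P.sig e j' := by
      rcases lt_trichotomy j j' with h | h | h
      · have hb := hf.pair j j' h hj'
        unfold Bad at hb
        simp only [Finset.mem_insert, Finset.mem_singleton, not_or] at hb
        obtain ⟨⟨b1, b2, b3, b4, b5⟩, c1, c2, c3, c4⟩ := hb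
        constructor <;> omega
      · subst h
        have ho := hf.own j hj
        unfold Own at ho
        push Not at ho
        exact ho
      · have hb := hf.pair j' j h hj
        unfold Bad at hb
        simp only [Finset.mem_insert, Finset.mem_singleton, not_or] at hb
        obtain ⟨⟨b1, b2, b3, b4, b5⟩, c1, c2, c3, c4⟩ := hb
        constructor <;> omega
    have x0 := hc.x0
    have x1 := hc.x1
    have x0' := hc'.x0
    have x1' := hc'.x1
    have r0 := hc.r0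
    have r1 := hc.r1
    refine ⟨?_, ?_, hd.1, hd.2⟩
    · intro h
      have h1 := tau_eq P e j
      have h2 := xx_eq P e (f j')
      rw [h] at h1
      have := cancel_v h1 h2 (by omega) (by omega) x0' (by omega)
      omega
    · intro h
      have h1 := xx_eq P e (f j)
      have h2 := sig_eq P e j'
      rw [h] at h1
      have := cancel_a h1 h2 r0 (by omega) (by omega) (by omega)
      omega
  rcases h with h | ⟨j, hj, rfl, rfl⟩ | ⟨j, hj, rfl, rfl⟩ <;>
    rcases h' with h' | ⟨j', hj', rfl, rfl⟩ | ⟨j', hj', rfl, rfl⟩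
  · exact oo ⟨h.1, h.2.1, h.2.2.1, h.2.2.2.1, h.2.2.2.2.1⟩
      ⟨h'.1, h'.2.1, h'.2.2.1, h'.2.2.2.1, h'.2.2.2.2.1⟩ hne
  · exact o1 h hj'
  · exact o2 h hj'
  · exact (o1 h' hj).symm
  · rcases lt_trichotomy j j' with hl | hl | hl
    · exact n11 hl hj'
    · subst hl; exfalso; rcases hne with hh | hh <;> exact hh rfl
    · exact (n11 hl hj).symm
  · exact n12 hj hj'
  · exact (o2 h' hj).symm
  · exact (n12 hj' hj).symm
  · rcases lt_trichotomy j j' with hl | hl | hl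
    · exact n22 hl hj'
    · subst hl; exfalso; rcases hne with hh | hh <;> exact hh rfl
    · exact (n22 hl hj).symm

/-- two labels of the same cell agree modulo `N` -/
lemma label_eq {i v g g' : ℤ} (h : P.N ∣ v - (P.a * i + P.a * (P.a ^ 2 - 1) * g))
    (h' : P.N ∣ v - (P.a * i + P.a * (P.a ^ 2 - 1) * g')) : P.N ∣ g - g' := by
  have h2 : P.N ∣ P.a * (P.a ^ 2 - 1) * (g - g') := by
    have : P.a * (P.a ^ 2 - 1) * (g - g') = (v - (P.a * i + P.a * (P.a ^ 2 - 1) * g')) -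
      (v - (P.a * i + P.a * (P.a ^ 2 - 1) * g)) := by ring
    rw [this]; exact dvd_sub h' h
  exact ((cop_D P).symm).dvd_of_dvd_mul_left h2

lemma emod_label {g g' s : ℤ} (h : P.N ∣ g - g') : (s * g) % P.N = (s * g') % P.N := by
  have : P.N ∣ s * g - s * g' := by
    rw [← mul_sub]; exact Dvd.dvd.mul_left h _
  exact Int.emod_eq_emod_iff_emod_sub_eq_zero.2 (Int.emod_eq_zero_of_dvd this)

lemma block_index {h x : ℤ} {i j : ℕ} (h1 : i * h ≤ x) (h2 : x < (i + 1) * h)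
    (h3 : j * h ≤ x) (h4 : x < (j + 1) * h) : i = j := by
  by_contra hne
  rcases Nat.lt_or_gt_of_ne hne with hl | hl
  · have : (i : ℤ) + 1 ≤ j := by exact_mod_cast hl
    have hh : 0 < h := by linarith
    nlinarith
  · have : (j : ℤ) + 1 ≤ i := by exact_mod_cast hl
    have hh : 0 < h := by linarith
    nlinarith

/-- different kept classes have disjoint repaired classes -/
lemma cell_disjoint {e e' : ℤ} {f f' : ℕ → ℤ} (hk : P.Kept e) (hk' : P.Kept e')
    (hf : Repair P e f) (hf' : Repair P e' f') (he0 : 0 ≤ e) (he : e < P.N) (he0' : 0 ≤ e')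
    (he' : e' < P.N) {i v : ℤ} (h : Cell P e f i v) (h' : Cell P e' f' i v) : e = e' := by
  have hg := P.hg
  -- old against new
  have o1 : ∀ {e e' : ℤ} {f' : ℕ → ℤ} {j : ℕ}, P.Kept e → Repair P e' f' → j < P.r →
      P.N ∣ P.xx (f' j) - (P.a * P.tau e' j + P.a * (P.a ^ 2 - 1) * e) → False := by
    intro e e' f' j hk hf' hj hd
    have h1 := label_eq hd (lab1 P e' j (f' j))
    have h2 := emod_label (s := P.a ^ 4 - P.a ^ 2) h1
    have h3 := (hf'.cand j hj).s1
    have h4 := hk.k1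
    have hjr : (j : ℤ) + 1 ≤ P.r := by exact_mod_cast hj
    have h5 : ((j : ℤ) + 1) * (4 * P.g) ≤ P.r * (4 * P.g) :=
      mul_le_mul_of_nonneg_right hjr (by omega)
    omega
  have o2 : ∀ {e e' : ℤ} {f' : ℕ → ℤ} {j : ℕ}, P.Kept e → Repair P e' f' → j < P.r →
      P.N ∣ P.sig e' j - (P.a * P.rr e' (f' j) + P.a * (P.a ^ 2 - 1) * e) → False := by
    intro e e' f' j hk hf' hj hd
    have h1 := label_eq hd (lab2 P e' j (f' j))
    have h2 := emod_label (s := P.a ^ 5 - P.a ^ 3) h1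
    have h3 := (hf'.cand j hj).s2
    have h4 := hk.k2
    have hjr : (j : ℤ) + 1 ≤ P.r := by exact_mod_cast hj
    have h5 : ((j : ℤ) + 1) * (4 * P.g) ≤ P.r * (4 * P.g) :=
      mul_le_mul_of_nonneg_right hjr (by omega)
    omega
  have n12 : ∀ {e e' : ℤ} {f f' : ℕ → ℤ} {j j' : ℕ}, Repair P e f → Repair P e' f' → j < P.r →
      j' < P.r → P.tau e j = P.rr e' (f' j') → P.xx (f j) = P.sig e' j' → False := by
    intro e e' f f' j j' hf hf' hj hj' h1 h2
    have h3 := lab1 P e j (f j)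
    have h4 := lab2 P e' j' (f' j')
    rw [h1, h2] at h3
    have h5 := emod_label (s := P.a ^ 4 - P.a ^ 2) (label_eq h3 h4)
    have h6 := (hf.cand j hj).s1
    have h7 := (hf'.cand j' hj').s3
    have hjr : (j : ℤ) + 1 ≤ P.r := by exact_mod_cast hj
    have h8 : ((j : ℤ) + 1) * (4 * P.g) ≤ P.r * (4 * P.g) :=
      mul_le_mul_of_nonneg_right hjr (by omega)
    omega
  rcases h with h | ⟨j, hj, h1, h2⟩ | ⟨j, hj, h1, h2⟩ <;>
    rcases h' with h' | ⟨j', hj', h1', h2'⟩ | ⟨j', hj', h1', h2'⟩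
  · exact eq_of_dvd_sub he0 he he0' he' (label_eq h.2.2.2.2.1 h'.2.2.2.2.1)
  · exfalso
    have hd := h.2.2.2.2.1
    rw [h1', h2'] at hd
    exact o1 hk hf' hj' hd
  · exfalso
    have hd := h.2.2.2.2.1
    rw [h1', h2'] at hd
    exact o2 hk hf' hj' hd
  · exfalso
    have hd := h'.2.2.2.2.1
    rw [h1, h2] at hd
    exact o1 hk' hf hj hd
  · have l1 := lab1 P e j (f j)
    have l2 := lab1 P e' j' (f' j')
    rw [← h1, ← h2] at l1
    rw [← h1', ← h2'] at l2
    have h5 := emod_label (s := P.a ^ 4 - P.a ^ 2) (label_eq l1 l2)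
    have h6 := (hf.cand j hj).s1
    have h7 := (hf'.cand j' hj').s1
    rw [← h5] at h7
    have h8 := block_index h6.1 h6.2 h7.1 h7.2
    subst h8
    have t1 := tau_eq P e j
    have t2 := tau_eq P e' j
    rw [← h1] at t1
    rw [← h1'] at t2
    exact eq_of_dvd_sub he0 he he0' he' (label_eq t1 t2)
  · exfalso
    exact n12 hf hf' hj hj' (h1.symm.trans h1') (h2.symm.trans h2')
  · exfalso
    have hd := h'.2.2.2.2.1
    rw [h1, h2] at hd
    exact o2 hk' hf hj hd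
  · exfalso
    exact n12 hf' hf hj' hj (h1'.symm.trans h1) (h2'.symm.trans h2)
  · have l1 := lab2 P e j (f j)
    have l2 := lab2 P e' j' (f' j')
    rw [← h1, ← h2] at l1
    rw [← h1', ← h2'] at l2
    have h5 := emod_label (s := P.a ^ 5 - P.a ^ 3) (label_eq l1 l2)
    have h6 := (hf.cand j hj).s2
    have h7 := (hf'.cand j' hj').s2
    rw [← h5] at h7
    have h8 := block_index h6.1 h6.2 h7.1 h7.2
    subst h8
    have t1 := sig_eq P e j
    have t2 := sig_eq P e' j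
    rw [← h2] at t1
    rw [← h2'] at t2
    exact eq_of_dvd_sub he0 he he0' he' (label_eq t1 t2)

end facts

end H58.QN
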