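import Mathlib
import Pool.Agent.H58.QN.Cell

/-!
Number of classes which are not kept.
-/

namespace H58.QN

lemma aff_count {N u : ℤ} (w lo hi : ℤ) (hu : IsCoprime u N) :
    ((Finset.Ico 0 N).filter (fun e => lo ≤ (u * e + w) % N ∧ (u * e + w) % N < hi)).card
      ≤ (hi - lo).toNat := by
  rw [← Int.card_Ico]
  apply Finset.card_le_card_of_injOn (fun e => (u * e + w) % N)
  · intro e he
    have := (Finset.mem_filter.1 (Finset.mem_coe.1 he)).2
    exact Finset.mem_coe.2 (Finset.mem_Ico.2 this)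
  · intro e he e' he' h
    have h1 := Finset.mem_Ico.1 (Finset.mem_filter.1 (Finset.mem_coe.1 he)).1
    have h2 := Finset.mem_Ico.1 (Finset.mem_filter.1 (Finset.mem_coe.1 he')).1
    simp only at h
    have h3 : N ∣ (u * e + w) - (u * e' + w) :=
      Int.dvd_of_emod_eq_zero (Int.emod_eq_emod_iff_emod_sub_eq_zero.1 h)
    have h4 : N ∣ u * (e - e') := by
      have : u * (e - e') = (u * e + w) - (u * e' + w) := by ring
      rw [this]; exact h3
    exact eq_of_dvd_sub h1.1 h1.2 h2.1 h2.2 ((hu.symm).dvd_of_dvd_mul_left h4)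

/-- classes for which a residue is smaller than `M` -/
lemma low_count {N u : ℤ} (w : ℤ) {M : ℤ} (hN : 0 < N) (hM : 0 ≤ M) (hu : IsCoprime u N) :
    (((Finset.Ico 0 N).filter (fun e => ¬ (M ≤ (u * e + w) % N))).card : ℤ) ≤ M := by
  have h1 := aff_count w 0 M hu
  have h2 : (Finset.Ico 0 N).filter (fun e => ¬ (M ≤ (u * e + w) % N)) ⊆
      (Finset.Ico 0 N).filter (fun e => 0 ≤ (u * e + w) % N ∧ (u * e + w) % N < M) := by
    intro e he
    rw [Finset.mem_filter] at he ⊢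
    exact ⟨he.1, Int.emod_nonneg _ hN.ne', not_le.1 he.2⟩
  have h3 := Finset.card_le_card h2
  omega

/-- classes for which a residue is smaller than `M` or larger than `N - M` -/
lemma edge_count {N u : ℤ} (w : ℤ) {M : ℤ} (hN : 0 < N) (hM : 0 ≤ M) (hu : IsCoprime u N) :
    (((Finset.Ico 0 N).filter (fun e => ¬ (M ≤ (u * e + w) % N ∧
      (u * e + w) % N ≤ N - M))).card : ℤ) ≤ 2 * M := by
  have h1 := aff_count w 0 M hu
  have h1' := aff_count w (N - M) N hu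
  have h2 : (Finset.Ico 0 N).filter (fun e => ¬ (M ≤ (u * e + w) % N ∧
      (u * e + w) % N ≤ N - M)) ⊆
      (Finset.Ico 0 N).filter (fun e => 0 ≤ (u * e + w) % N ∧ (u * e + w) % N < M) ∪
      (Finset.Ico 0 N).filter (fun e => N - M ≤ (u * e + w) % N ∧ (u * e + w) % N < N) := by
    intro e he
    rw [Finset.mem_filter] at he
    rw [Finset.mem_union, Finset.mem_filter, Finset.mem_filter]
    have h3 := Int.emod_nonneg (u * e + w) hN.ne'
    have h4 := Int.emod_lt_of_pos (u * e + w) hN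
    rcases lt_or_ge ((u * e + w) % N) M with h | h
    · exact Or.inl ⟨he.1, h3, h⟩
    · right
      refine ⟨he.1, ?_, h4⟩
      have := he.2
      omega
  have h3 := (Finset.card_le_card h2).trans (Finset.card_union_le _ _)
  omega

open Classical in
/-- the number of classes which are not kept -/
lemma not_kept_count (P : Par) :
    (((Finset.Ico 0 P.N).filter (fun e => ¬ P.Kept e)).card : ℤ) ≤
      8 * P.r * P.g + P.r * (640 * P.g + 8 * P.r * P.g) := by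
  have hN0 := N_pos P
  have hg := P.hg
  have hb := cop_b P
  have hD := cop_D P
  set I := Finset.Ico 0 P.N with hI
  set B1 := I.filter (fun e => ¬ (P.r * (4 * P.g) ≤ ((P.a ^ 4 - P.a ^ 2) * e) % P.N)) with hB1
  set B2 := I.filter (fun e => ¬ (P.r * (4 * P.g) ≤ ((P.a ^ 5 - P.a ^ 3) * e) % P.N)) with hB2
  set B3 : ℕ → Finset ℤ := fun j => I.filter (fun e => ¬ (20 * (4 * P.g) ≤
    ((P.a ^ 2 - 1) * (P.ν j - e)) % P.N ∧
    ((P.a ^ 2 - 1) * (P.ν j - e)) % P.N ≤ P.N - 20 * (4 * P.g))) with hB3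
  set B4 : ℕ → Finset ℤ := fun j => I.filter (fun e => ¬ (20 * (4 * P.g) ≤
    (P.a * (P.a ^ 2 - 1) * (P.a * P.ν j + e)) % P.N ∧
    (P.a * (P.a ^ 2 - 1) * (P.a * P.ν j + e)) % P.N ≤ P.N - 20 * (4 * P.g))) with hB4
  set B5 : ℕ → Finset ℤ := fun j => I.filter (fun e => ¬ (20 * (4 * P.g) ≤
    ((P.a ^ 2 - 1) * (P.ν j - e) - P.a * (P.a ^ 2 - 1) * (P.a * P.ν j + e)) % P.N ∧
    ((P.a ^ 2 - 1) * (P.ν j - e) - P.a * (P.a ^ 2 - 1) * (P.a * P.ν j + e)) % P.N
      ≤ P.N - 20 * (4 * P.g))) with hB5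
  set B6 : ℕ → Finset ℤ := fun j => I.filter (fun e => ¬ (20 * (4 * P.g) ≤
    ((P.a ^ 2 - 1) * (P.ν j - e) + P.a * (P.a ^ 2 - 1) * (P.a * P.ν j + e)) % P.N ∧
    ((P.a ^ 2 - 1) * (P.ν j - e) + P.a * (P.a ^ 2 - 1) * (P.a * P.ν j + e)) % P.N
      ≤ P.N - 20 * (4 * P.g))) with hB6
  set B7 : ℕ → Finset ℤ := fun j => I.filter (fun e => ¬ (2 * P.r * (4 * P.g) ≤
    ((P.a ^ 4 - P.a ^ 2) * ((P.a - 1) * P.ν j + 3 * e)) % P.N)) with hB7
  have hsub : I.filter (fun e => ¬ P.Kept e) ⊆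
      (B1 ∪ B2) ∪ (Finset.range P.r).biUnion (fun j => B3 j ∪ B4 j ∪ B5 j ∪ B6 j ∪ B7 j) := by
    intro e he
    rw [Finset.mem_filter] at he
    by_contra hno
    apply he.2
    simp only [Finset.mem_union, Finset.mem_biUnion, Finset.mem_range, not_or, not_exists,
      not_and, hB1, hB2, hB3, hB4, hB5, hB6, hB7, Finset.mem_filter, not_not] at hno
    obtain ⟨⟨n1, n2⟩, n3⟩ := hno
    have fx : ∀ {p q : Prop}, ¬ (p → ¬ q) → p ∧ q := by tauto
    exact ⟨n1 he.1, n2 he.1, fun j hj => fx ((n3 j hj).1.1.1.1 he.1),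
      fun j hj => fx ((n3 j hj).1.1.1.2 he.1), fun j hj => fx ((n3 j hj).1.1.2 he.1),
      fun j hj => fx ((n3 j hj).1.2 he.1), fun j hj => (n3 j hj).2 he.1⟩
  have u4 : IsCoprime (P.a ^ 4 - P.a ^ 2) P.N := by
    have : P.a ^ 4 - P.a ^ 2 = P.a * (P.a * (P.a ^ 2 - 1)) := by ring
    rw [this]; exact P.ca.mul_left hD
  have u5 : IsCoprime (P.a ^ 5 - P.a ^ 3) P.N := by
    have : P.a ^ 5 - P.a ^ 3 = P.a * (P.a * (P.a * (P.a ^ 2 - 1))) := by ring
    rw [this]; exact P.ca.mul_left (P.ca.mul_left hD)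
  have c1 : (B1.card : ℤ) ≤ P.r * (4 * P.g) := by
    have := low_count (N := P.N) (u := P.a ^ 4 - P.a ^ 2) 0 (M := P.r * (4 * P.g)) hN0
      (by positivity) u4
    simpa only [add_zero] using this
  have c2 : (B2.card : ℤ) ≤ P.r * (4 * P.g) := by
    have := low_count (N := P.N) (u := P.a ^ 5 - P.a ^ 3) 0 (M := P.r * (4 * P.g)) hN0
      (by positivity) u5
    simpa only [add_zero] using this
  have c3 : ∀ j, ((B3 j).card : ℤ) ≤ 2 * (20 * (4 * P.g)) := by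
    intro j
    have := edge_count (N := P.N) (u := -(P.a ^ 2 - 1)) ((P.a ^ 2 - 1) * P.ν j)
      (M := 20 * (4 * P.g)) hN0 (by positivity) hb.neg_left
    have he : ∀ e : ℤ, -(P.a ^ 2 - 1) * e + (P.a ^ 2 - 1) * P.ν j =
      (P.a ^ 2 - 1) * (P.ν j - e) := by intro e; ring
    simpa only [he] using this
  have c4 : ∀ j, ((B4 j).card : ℤ) ≤ 2 * (20 * (4 * P.g)) := by
    intro j
    have := edge_count (N := P.N) (u := P.a * (P.a ^ 2 - 1))
      (P.a * (P.a ^ 2 - 1) * (P.a * P.ν j))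
      (M := 20 * (4 * P.g)) hN0 (by positivity) hD
    have he : ∀ e : ℤ, P.a * (P.a ^ 2 - 1) * e + P.a * (P.a ^ 2 - 1) * (P.a * P.ν j) =
      P.a * (P.a ^ 2 - 1) * (P.a * P.ν j + e) := by intro e; ring
    simpa only [he] using this
  have c5 : ∀ j, ((B5 j).card : ℤ) ≤ 2 * (20 * (4 * P.g)) := by
    intro j
    have := edge_count (N := P.N) (u := -((P.a ^ 2 - 1) * (P.a + 1)))
      ((P.a ^ 2 - 1) * P.ν j - P.a * (P.a ^ 2 - 1) * (P.a * P.ν j))
      (M := 20 * (4 * P.g)) hN0 (by positivity) (hb.mul_left P.cp).neg_left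
    have he : ∀ e : ℤ, -((P.a ^ 2 - 1) * (P.a + 1)) * e +
      ((P.a ^ 2 - 1) * P.ν j - P.a * (P.a ^ 2 - 1) * (P.a * P.ν j)) =
      (P.a ^ 2 - 1) * (P.ν j - e) - P.a * (P.a ^ 2 - 1) * (P.a * P.ν j + e) := by
      intro e; ring
    simpa only [he] using this
  have c6 : ∀ j, ((B6 j).card : ℤ) ≤ 2 * (20 * (4 * P.g)) := by
    intro j
    have := edge_count (N := P.N) (u := (P.a ^ 2 - 1) * (P.a - 1))
      ((P.a ^ 2 - 1) * P.ν j + P.a * (P.a ^ 2 - 1) * (P.a * P.ν j))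
      (M := 20 * (4 * P.g)) hN0 (by positivity) (hb.mul_left P.cm)
    have he : ∀ e : ℤ, (P.a ^ 2 - 1) * (P.a - 1) * e +
      ((P.a ^ 2 - 1) * P.ν j + P.a * (P.a ^ 2 - 1) * (P.a * P.ν j)) =
      (P.a ^ 2 - 1) * (P.ν j - e) + P.a * (P.a ^ 2 - 1) * (P.a * P.ν j + e) := by
      intro e; ring
    simpa only [he] using this
  have c7 : ∀ j, ((B7 j).card : ℤ) ≤ 2 * P.r * (4 * P.g) := by
    intro j
    have := low_count (N := P.N) (u := (P.a ^ 4 - P.a ^ 2) * 3)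
      ((P.a ^ 4 - P.a ^ 2) * ((P.a - 1) * P.ν j))
      (M := 2 * P.r * (4 * P.g)) hN0 (by positivity) (u4.mul_left P.c3)
    have he : ∀ e : ℤ, (P.a ^ 4 - P.a ^ 2) * 3 * e +
      ((P.a ^ 4 - P.a ^ 2) * ((P.a - 1) * P.ν j)) =
      (P.a ^ 4 - P.a ^ 2) * ((P.a - 1) * P.ν j + 3 * e) := by
      intro e; ring
    simpa only [he] using this
  have h1 : ((I.filter (fun e => ¬ P.Kept e)).card : ℤ) ≤
      ((B1 ∪ B2).card : ℤ) +
      (((Finset.range P.r).biUnion (fun j => B3 j ∪ B4 j ∪ B5 j ∪ B6 j ∪ B7 j)).card : ℤ) := by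
    exact_mod_cast (Finset.card_le_card hsub).trans (Finset.card_union_le _ _)
  have h2 : ((B1 ∪ B2).card : ℤ) ≤ B1.card + B2.card := by
    exact_mod_cast Finset.card_union_le _ _
  have h3 : (((Finset.range P.r).biUnion
      (fun j => B3 j ∪ B4 j ∪ B5 j ∪ B6 j ∪ B7 j)).card : ℤ) ≤
      P.r * (640 * P.g + 8 * P.r * P.g) := by
    have h4 : ∀ j, ((B3 j ∪ B4 j ∪ B5 j ∪ B6 j ∪ B7 j).card : ℤ) ≤
        640 * P.g + 8 * P.r * P.g := by
      intro j
      have e1 := Finset.card_union_le (B3 j ∪ B4 j ∪ B5 j ∪ B6 j) (B7 j)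
      have e2 := Finset.card_union_le (B3 j ∪ B4 j ∪ B5 j) (B6 j)
      have e3 := Finset.card_union_le (B3 j ∪ B4 j) (B5 j)
      have e4 := Finset.card_union_le (B3 j) (B4 j)
      have f3 := c3 j
      have f4 := c4 j
      have f5 := c5 j
      have f6 := c6 j
      have f7 := c7 j
      have e5 : ((B3 j ∪ B4 j ∪ B5 j ∪ B6 j ∪ B7 j).card : ℤ) ≤
        (B3 j).card + (B4 j).card + (B5 j).card + (B6 j).card + (B7 j).card := by
        have : (B3 j ∪ B4 j ∪ B5 j ∪ B6 j ∪ B7 j).card ≤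
          (B3 j).card + (B4 j).card + (B5 j).card + (B6 j).card + (B7 j).card := by omega
        exact_mod_cast this
      linarith
    have h5 : (((Finset.range P.r).biUnion
      (fun j => B3 j ∪ B4 j ∪ B5 j ∪ B6 j ∪ B7 j)).card : ℤ) ≤
      ∑ j ∈ Finset.range P.r, ((B3 j ∪ B4 j ∪ B5 j ∪ B6 j ∪ B7 j).card : ℤ) := by
      exact_mod_cast Finset.card_biUnion_le
    have h6 : ∑ j ∈ Finset.range P.r, ((B3 j ∪ B4 j ∪ B5 j ∪ B6 j ∪ B7 j).card : ℤ) ≤
      ∑ _j ∈ Finset.range P.r, (640 * P.g + 8 * P.r * P.g) :=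
      Finset.sum_le_sum (fun j _ => h4 j)
    rw [Finset.sum_const, Finset.card_range, nsmul_eq_mul] at h6
    linarith
  linarith

end H58.QN
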