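import Mathlib

/-!
Patterns of nonattacking queens and the number `Q n`.
-/

namespace H58.QN

/-- a pattern of `n` nonattacking queens on the board `{1, ..., n} × {1, ..., n}` -/
def IsPattern (n : ℕ) (S : Finset (ℕ × ℕ)) : Prop :=
  S ⊆ Finset.Icc 1 n ×ˢ Finset.Icc 1 n ∧ S.card = n ∧
    ∀ p ∈ S, ∀ q ∈ S, p ≠ q → p.1 ≠ q.1 ∧ p.2 ≠ q.2 ∧
      (p.1 : ℤ) - p.2 ≠ (q.1 : ℤ) - q.2 ∧ p.1 + p.2 ≠ q.1 + q.2

/-- a set of pairwise disjoint patterns -/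
def Family (n : ℕ) (F : Finset (Finset (ℕ × ℕ))) : Prop :=
  (∀ S ∈ F, IsPattern n S) ∧ ∀ S ∈ F, ∀ T ∈ F, S ≠ T → Disjoint S T

/-- the largest number of pairwise disjoint patterns of `n` nonattacking queens -/
noncomputable def Q (n : ℕ) : ℕ :=
  sSup {k : ℕ | ∃ F : Finset (Finset (ℕ × ℕ)), Family n F ∧ F.card = k}

end H58.QN
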