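import Mathlib

/-!
A modulus `N` slightly larger than `n`, coprime to `6` and to `4 ^ l - 1` for a prime `l`.
-/

namespace H58.QN

/-- a prime factor of `4 ^ l - 1`, different from `3`, is larger than `l` -/
lemma prime_factor_large {l p : ℕ} (hl : l.Prime) (hp : p.Prime) (h3 : p ≠ 3)
    (hd : p ∣ 4 ^ l - 1) : l < p := by
  have : Fact p.Prime := ⟨hp⟩
  have h41 : 1 ≤ 4 ^ l := Nat.one_le_pow _ _ (by norm_num)
  have hpow : (4 : ZMod p) ^ l = 1 := by
    have h1 : ((4 ^ l - 1 : ℕ) : ZMod p) = 0 := (ZMod.natCast_eq_zero_iff _ _).2 hd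
    rw [Nat.cast_sub h41] at h1
    push_cast at h1
    exact sub_eq_zero.1 h1
  have ho : orderOf (4 : ZMod p) ∣ l := orderOf_dvd_of_pow_eq_one hpow
  have h4 : (4 : ZMod p) ≠ 0 := by
    intro h
    rw [h, zero_pow hl.ne_zero] at hpow
    exact zero_ne_one hpow
  rcases (Nat.dvd_prime hl).1 ho with h | h
  · exfalso
    rw [orderOf_eq_one_iff] at h
    have h3' : ((3 : ℕ) : ZMod p) = 0 := by
      have : (4 : ZMod p) - 1 = 0 := sub_eq_zero.2 h
      have h43 : (4 : ZMod p) - 1 = ((3 : ℕ) : ZMod p) := by push_cast; ring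
      rw [← h43]; exact this
    rw [ZMod.natCast_eq_zero_iff] at h3'
    exact h3 ((Nat.prime_dvd_prime_iff_eq hp Nat.prime_three).1 h3')
  · have h1 : orderOf (4 : ZMod p) ∣ p - 1 := ZMod.orderOf_dvd_card_sub_one h4
    rw [h] at h1
    have h2 : 0 < p - 1 := Nat.sub_pos_of_lt hp.one_lt
    have h5 := Nat.le_of_dvd h2 h1
    omega

/-- existence of the modulus -/
lemma exists_modulus {l : ℕ} (hl : l.Prime) (h5 : 5 ≤ l) (n : ℕ) :
    ∃ N, n < N ∧ N ≤ n + 6 * l + 7 ∧ Nat.Coprime N 6 ∧ Nat.Coprime N (4 ^ l - 1) := by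
  classical
  set b := 6 * (n / 6 + 1) + 1 with hb
  set W := (4 ^ l - 1).primeFactors.erase 3 with hW
  have h41 : 4 ^ l - 1 ≠ 0 := by
    have : 4 ^ 1 ≤ 4 ^ l := Nat.pow_le_pow_right (by norm_num) (by omega)
    omega
  have hWl : ∀ p ∈ W, p.Prime ∧ p ∣ 4 ^ l - 1 ∧ l < p := by
    intro p hp
    rw [hW, Finset.mem_erase] at hp
    have h1 := Nat.prime_of_mem_primeFactors hp.2
    have h2 := Nat.dvd_of_mem_primeFactors hp.2
    exact ⟨h1, h2, prime_factor_large hl h1 hp.1 h2⟩
  have hcard : W.card < l := by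
    have h1 : ∏ p ∈ W, p ∣ 4 ^ l - 1 := by
      have h2 : ∏ p ∈ W, p ∣ ∏ p ∈ (4 ^ l - 1).primeFactors, p :=
        Finset.prod_dvd_prod_of_subset _ _ _ (Finset.erase_subset _ _)
      exact h2.trans (Nat.prod_primeFactors_dvd _)
    have h2 : ∏ p ∈ W, p ≤ 4 ^ l - 1 := Nat.le_of_dvd (Nat.pos_of_ne_zero h41) h1
    have h3 : 4 ^ W.card ≤ ∏ p ∈ W, p := by
      rw [← Finset.prod_const]
      apply Finset.prod_le_prod'
      intro p hp
      have := (hWl p hp).2.2
      omega
    have h4 : 4 ^ W.card < 4 ^ l := by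
      have : 1 ≤ 4 ^ l := Nat.one_le_pow _ _ (by norm_num)
      omega
    exact (Nat.pow_lt_pow_iff_right (by norm_num)).1 h4
  by_contra hno
  push Not at hno
  have hex : ∀ i ∈ Finset.range l, ∃ p ∈ W, p ∣ b + 6 * i := by
    intro i hi
    rw [Finset.mem_range] at hi
    have hN1 : n < b + 6 * i := by omega
    have hN2 : b + 6 * i ≤ n + 6 * l + 7 := by omega
    have hN3 : Nat.Coprime (b + 6 * i) 6 := by
      have : b + 6 * i = 1 + 6 * (n / 6 + 1 + i) := by omega
      rw [this]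
      simp
    have hN4 := hno _ hN1 hN2 hN3
    replace hN4 := Nat.Prime.not_coprime_iff_dvd.1 hN4
    obtain ⟨p, hp, hp1, hp2⟩ := hN4
    refine ⟨p, ?_, hp1⟩
    rw [hW, Finset.mem_erase, Nat.mem_primeFactors]
    refine ⟨?_, hp, hp2, h41⟩
    rintro rfl
    omega
  choose! f hf1 hf2 using hex
  have hinj : Set.InjOn f (Finset.range l : Set ℕ) := by
    intro i hi j hj hij
    have hi' := Finset.mem_coe.1 hi
    have hj' := Finset.mem_coe.1 hj
    have h1 := hf2 i hi'
    have h2 := hf2 j hj'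
    have hp := hWl _ (hf1 i hi')
    rw [← hij] at h2
    rw [Finset.mem_range] at hi' hj'
    have hpN : ¬ f i ∣ 6 := by
      intro h
      have := Nat.le_of_dvd (by norm_num) h
      have h6 : f i = 6 := by omega
      rw [h6] at hp
      exact absurd hp.1 (by norm_num)
    have hco : Nat.Coprime (f i) 6 := (Nat.Prime.coprime_iff_not_dvd hp.1).2 hpN
    rcases le_total i j with h | h
    · have h3 : f i ∣ 6 * (j - i) := by
        have h4 := (Nat.dvd_sub h2 h1)
        have : b + 6 * j - (b + 6 * i) = 6 * (j - i) := by omega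
        rwa [this] at h4
      have h4 := hco.dvd_of_dvd_mul_left h3
      rcases Nat.eq_zero_or_pos (j - i) with h0 | h0
      · omega
      · have := Nat.le_of_dvd h0 h4; omega
    · have h3 : f i ∣ 6 * (i - j) := by
        have h4 := (Nat.dvd_sub h1 h2)
        have : b + 6 * i - (b + 6 * j) = 6 * (i - j) := by omega
        rwa [this] at h4
      have h4 := hco.dvd_of_dvd_mul_left h3
      rcases Nat.eq_zero_or_pos (i - j) with h0 | h0
      · omega
      · have := Nat.le_of_dvd h0 h4; omega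
  have := Finset.card_le_card_of_injOn f (fun i hi => hf1 i hi) hinj
  rw [Finset.card_range] at this
  omega

end H58.QN
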