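import Mathlib
import Pool.Agent.H58.QN.Count
import Pool.Agent.H58.QN.Defs

/-!
Patterns, the number `Q n`, and the lower bound from one set of parameters.
-/

namespace H58.QN

/-- at most `n` pairwise disjoint patterns -/
lemma family_card_le {n : ℕ} (hn : 1 ≤ n) {F : Finset (Finset (ℕ × ℕ))} (hF : Family n F) :
    F.card ≤ n := by
  classical
  have h1 : ∀ S ∈ F, ∃ c, (1, c) ∈ S := by
    intro S hS
    obtain ⟨a1, a2, a3⟩ := hF.1 S hS
    have hinj : Set.InjOn Prod.fst (S : Set (ℕ × ℕ)) := by
      intro p hp q hq h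
      by_contra hne
      exact (a3 p hp q hq hne).1 h
    have himg : S.image Prod.fst = Finset.Icc 1 n := by
      apply Finset.eq_of_subset_of_card_le
      · intro x hx
        obtain ⟨p, hp, rfl⟩ := Finset.mem_image.1 hx
        exact (Finset.mem_product.1 (a1 hp)).1
      · rw [Finset.card_image_of_injOn hinj, a2]
        simp
    have h11 : 1 ∈ S.image Prod.fst := by
      rw [himg, Finset.mem_Icc]; omega
    obtain ⟨p, hp, h⟩ := Finset.mem_image.1 h11
    refine ⟨p.2, ?_⟩
    rw [← h]; exact hp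
  choose! c hc using h1
  have h2 : F.card ≤ (Finset.Icc 1 n).card := by
    apply Finset.card_le_card_of_injOn c
    · intro S hS
      have := (hF.1 S hS).1 (hc S hS)
      exact (Finset.mem_product.1 this).2
    · intro S hS T hT h
      by_contra hne
      have hd := hF.2 S hS T hT hne
      have h3 := hc S hS
      have h4 := hc T hT
      rw [← h] at h4
      exact (Finset.disjoint_left.1 hd h3) h4
  simpa using h2

lemma Q_le {n : ℕ} (hn : 1 ≤ n) : Q n ≤ n := by
  apply csSup_le
  · exact ⟨0, ∅, ⟨by simp, by simp⟩, by simp⟩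
  · rintro k ⟨F, hF, rfl⟩
    exact family_card_le hn hF

lemma le_Q {n : ℕ} (hn : 1 ≤ n) {F : Finset (Finset (ℕ × ℕ))} (hF : Family n F) :
    F.card ≤ Q n := by
  apply le_csSup
  · exact ⟨n, by rintro k ⟨F, hF, rfl⟩; exact family_card_le hn hF⟩
  · exact ⟨F, hF, rfl⟩

open Classical in
/-- the lower bound from one set of parameters -/
lemma Q_ge_of_par (P : Par) {n : ℕ} (hn : 1 ≤ n) (hPn : P.n = n) :
    P.N - (8 * P.r * P.g + P.r * (640 * P.g + 8 * P.r * P.g)) ≤ Q n := by
  have hN0 := N_pos P
  have hex : ∀ e : ℤ, ∃ f : ℕ → ℤ, P.Kept e → Repair P e f := by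
    intro e
    by_cases h : P.Kept e
    · obtain ⟨f, hf⟩ := exists_repair P h
      exact ⟨f, fun _ => hf⟩
    · exact ⟨fun _ => 0, fun h' => absurd h' h⟩
  choose f hf using hex
  have hv : ∀ (e : ℤ) (i : ℕ), ∃ v : ℕ, P.Kept e → i < n → Cell P e (f e) i v ∧ v < n := by
    intro e i
    by_cases h : P.Kept e ∧ i < n
    · obtain ⟨v, hv⟩ := cell_total (f := f e) h.1 (i := (i : ℤ)) (by positivity)
        (by rw [hPn]; exact_mod_cast h.2)
      have hr := cell_range h.1 (hf e h.1) hv
      obtain ⟨w, hw⟩ := Int.eq_ofNat_of_zero_le hr.2.2.1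
      refine ⟨w, fun _ _ => ⟨by rw [← hw]; exact hv, ?_⟩⟩
      have h2 := hr.2.2.2
      rw [hw, hPn] at h2
      exact_mod_cast h2
    · refine ⟨0, fun h1 h2 => absurd ⟨h1, h2⟩ h⟩
  choose v hv using hv
  set pat : ℤ → Finset (ℕ × ℕ) := fun e => (Finset.range n).image (fun i => (i + 1, v e i + 1))
    with hpat
  set K := (Finset.Ico 0 P.N).filter (fun e => P.Kept e) with hK
  have hmem : ∀ e p, p ∈ pat e ↔ ∃ i < n, p = (i + 1, v e i + 1) := by
    intro e p
    rw [hpat]
    simp only [Finset.mem_image, Finset.mem_range]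
    constructor
    · rintro ⟨i, hi, rfl⟩; exact ⟨i, hi, rfl⟩
    · rintro ⟨i, hi, rfl⟩; exact ⟨i, hi, rfl⟩
  have hdisj : ∀ e ∈ K, ∀ e' ∈ K, e ≠ e' → Disjoint (pat e) (pat e') := by
    intro e he e' he' hne
    rw [Finset.disjoint_left]
    intro p hp hp'
    obtain ⟨i, hi, h1⟩ := (hmem e p).1 hp
    obtain ⟨i', hi', h1'⟩ := (hmem e' p).1 hp'
    have h2 := h1.symm.trans h1'
    rw [Prod.mk.injEq] at h2
    have h3 : i = i' := by omega
    subst h3
    have h4 : v e i = v e' i := by omega
    rw [hK, Finset.mem_filter, Finset.mem_Ico] at he he'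
    have c1 := (hv e i he.2 hi).1
    have c2 := (hv e' i he'.2 hi).1
    rw [← h4] at c2
    exact hne (cell_disjoint he.2 he'.2 (hf e he.2) (hf e' he'.2) he.1.1 he.1.2 he'.1.1 he'.1.2
      c1 c2)
  have hne : ∀ e, (pat e).Nonempty := by
    intro e
    exact ⟨(0 + 1, v e 0 + 1), (hmem e _).2 ⟨0, by omega, rfl⟩⟩
  have hinj : Set.InjOn pat (K : Set ℤ) := by
    intro e he e' he' h
    by_contra hne'
    have h1 := hdisj e he e' he' hne'
    rw [← h, disjoint_self] at h1
    obtain ⟨p, hp⟩ := hne e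
    rw [h1] at hp
    exact absurd hp (Finset.notMem_empty p)
  have hfam : Family n (K.image pat) := by
    refine ⟨?_, ?_⟩
    · intro S hS
      obtain ⟨e, he, rfl⟩ := Finset.mem_image.1 hS
      rw [hK, Finset.mem_filter] at he
      refine ⟨?_, ?_, ?_⟩
      · intro p hp
        obtain ⟨i, hi, rfl⟩ := (hmem e p).1 hp
        have := (hv e i he.2 hi).2
        rw [Finset.mem_product, Finset.mem_Icc, Finset.mem_Icc]
        simp only
        omega
      · rw [hpat]
        simp only
        rw [Finset.card_image_of_injective _ (by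
          intro i i' h
          rw [Prod.mk.injEq] at h
          omega), Finset.card_range]
      · intro p hp q hq hpq
        obtain ⟨i, hi, rfl⟩ := (hmem e p).1 hp
        obtain ⟨i', hi', rfl⟩ := (hmem e q).1 hq
        have c1 := (hv e i he.2 hi).1
        have c2 := (hv e i' he.2 hi').1
        have hii : (i : ℤ) ≠ i' := by
          intro h
          have h' : i = i' := by exact_mod_cast h
          apply hpq
          rw [h']
        obtain ⟨n1, n2, n3, n4⟩ := cell_nonatt he.2 (hf e he.2) c1 c2 (Or.inl hii)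
        simp only
        push_cast
        refine ⟨by omega, by omega, by omega, by omega⟩
    · intro S hS T hT hST
      obtain ⟨e, he, rfl⟩ := Finset.mem_image.1 hS
      obtain ⟨e', he', rfl⟩ := Finset.mem_image.1 hT
      apply hdisj e he e' he'
      rintro rfl
      exact hST rfl
  have h1 := le_Q hn hfam
  rw [Finset.card_image_of_injOn hinj] at h1
  have h2 := not_kept_count P
  have h3 := Finset.card_filter_add_card_filter_not (s := Finset.Ico 0 P.N) (fun e => P.Kept e)
  rw [Int.card_Ico, sub_zero, ← hK] at h3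
  have h4 : ((P.N.toNat : ℕ) : ℤ) = P.N := Int.toNat_of_nonneg hN0.le
  have h5 : (K.card : ℤ) + (((Finset.Ico 0 P.N).filter (fun e => ¬ P.Kept e)).card : ℤ) = P.N := by
    omega
  have h6 : (K.card : ℤ) ≤ Q n := by exact_mod_cast h1
  linarith

end H58.QN
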