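import Mathlib
import Pool.Agent.H58.QN.Num
import Pool.Agent.H58.QN.Patt

/-!
The choice of the parameters and the final estimate.
-/

namespace H58.QN

/-- the estimate for one prime `l` -/
lemma core {l n : ℕ} (hl : l.Prime) (h11 : 11 ≤ l)
    (hn : (54 * l + 68) * 2 ^ (6 * l) ≤ 2 * n) :
    ((n : ℤ) - Q n) * 2 ^ l ≤ 5000 * l ^ 2 * n := by
  obtain ⟨M, hM1, hM2, hM3, hM4⟩ := exists_modulus hl (by omega) n
  set a : ℤ := 2 ^ l with ha
  have ha2048 : (2048 : ℤ) ≤ a := by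
    have : (2 : ℤ) ^ 11 ≤ 2 ^ l := pow_le_pow_right₀ (by norm_num) h11
    norm_num at this
    exact this
  set N : ℤ := (M : ℤ) with hN
  set r : ℕ := M - n with hr
  have hrN : (n : ℤ) + r = N := by omega
  have hr1 : (r : ℤ) ≤ 6 * l + 7 := by omega
  have hnN : (n : ℤ) < N := by omega
  have ha6 : (54 * (l : ℤ) + 68) * a ^ 6 ≤ 2 * n := by
    have h1 : a ^ 6 = 2 ^ (6 * l) := by rw [ha, ← pow_mul, mul_comm]
    rw [h1]
    exact_mod_cast hn
  have hl11 : (11 : ℤ) ≤ l := by exact_mod_cast h11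
  have ha0 : 0 < a := by omega
  have haa : a ≤ a ^ 6 := by
    calc a = a ^ 1 := (pow_one a).symm
      _ ≤ a ^ 6 := pow_le_pow_right₀ (by omega) (by norm_num)
  have hl0 : (0 : ℤ) ≤ l := by positivity
  have hna : 300 * a ≤ n := by
    have h1 : 600 * a ≤ (54 * (l : ℤ) + 68) * a ^ 6 :=
      mul_le_mul (by linarith) haa (by omega) (by linarith)
    linarith
  have hnl : 100 * (l : ℤ) ≤ n := by
    have : (l : ℤ) < a := by
      rw [ha]; exact_mod_cast Nat.lt_two_pow_self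
    linarith
  set g : ℤ := 2 * N / (a - 3) + 1 with hg
  have ha3 : 0 < a - 3 := by omega
  have hgl : 2 * N < g * (a - 3) := by
    have := Int.lt_ediv_add_one_mul_self (2 * N) ha3
    rw [hg]; exact this
  have hgu : g * (a - 3) ≤ 2 * N + (a - 3) := by
    have := Int.ediv_mul_le (2 * N) ha3.ne'
    rw [hg]; linarith
  have hg0 : 0 < g := by
    have : 0 < g * (a - 3) := by linarith
    exact pos_of_mul_pos_left this ha3.le
  have hgN : 400 * g ≤ N := by nlinarith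
  have hga : g * a ≤ 6 * n := by
    have : N ≤ 2 * n := by omega
    nlinarith
  have hroom : ((9 * r + 4 : ℕ) + 1 : ℤ) * (a ^ 5 - a ^ 3) ≤ g := by
    have h1 : ((9 * r + 4 : ℕ) + 1 : ℤ) ≤ 54 * l + 68 := by
      push_cast; linarith
    have h2 : (a ^ 5 - a ^ 3) * (a - 3) ≤ a ^ 6 := by
      have : a ^ 6 - (a ^ 5 - a ^ 3) * (a - 3) = 3 * a ^ 5 + a ^ 4 - 3 * a ^ 3 := by ring
      have h3 : a ^ 3 ≤ a ^ 5 := pow_le_pow_right₀ (by omega) (by norm_num)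
      have h4 : 0 ≤ a ^ 4 := by positivity
      linarith
    have h3 : (0 : ℤ) ≤ a ^ 5 - a ^ 3 := by
      have h3 : a ^ 3 ≤ a ^ 5 := pow_le_pow_right₀ (by omega) (by norm_num)
      linarith
    have h4 : (((9 * r + 4 : ℕ) + 1 : ℤ) * (a ^ 5 - a ^ 3)) * (a - 3) ≤ g * (a - 3) := by
      calc (((9 * r + 4 : ℕ) + 1 : ℤ) * (a ^ 5 - a ^ 3)) * (a - 3)
          = ((9 * r + 4 : ℕ) + 1 : ℤ) * ((a ^ 5 - a ^ 3) * (a - 3)) := by ring
        _ ≤ (54 * l + 68) * a ^ 6 :=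
            mul_le_mul h1 h2 (mul_nonneg h3 ha3.le) (by linarith)
        _ ≤ g * (a - 3) := by linarith
    exact le_of_mul_le_mul_right h4 ha3
  have hrg : (r : ℤ) ≤ g := by
    have h3 : (1 : ℤ) ≤ a ^ 5 - a ^ 3 := by
      have h3 : a ^ 5 - a ^ 3 = a ^ 3 * (a ^ 2 - 1) := by ring
      rw [h3]
      have h4 : 1 ≤ a ^ 3 := one_le_pow₀ (by omega)
      have h5 : 1 ≤ a ^ 2 - 1 := by nlinarith
      nlinarith
    have h4 : (r : ℤ) ≤ ((9 * r + 4 : ℕ) + 1 : ℤ) := by push_cast; linarith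
    have h5 : (0 : ℤ) ≤ ((9 * r + 4 : ℕ) + 1 : ℤ) := by positivity
    nlinarith
  -- coprimality
  have co2 : IsCoprime (2 : ℤ) N := by
    have h1 : Nat.Coprime M 2 := Nat.Coprime.coprime_dvd_right (by norm_num) hM3
    exact Nat.isCoprime_iff_coprime.2 h1.symm
  have co3 : IsCoprime (3 : ℤ) N := by
    have h1 : Nat.Coprime M 3 := Nat.Coprime.coprime_dvd_right (by norm_num) hM3
    exact Nat.isCoprime_iff_coprime.2 h1.symm
  have coa : IsCoprime a N := by rw [ha]; exact co2.pow_left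
  have co4 : IsCoprime ((4 : ℤ) ^ l - 1) N := by
    have h1 : IsCoprime (((4 ^ l - 1 : ℕ) : ℤ)) (M : ℤ) :=
      Nat.isCoprime_iff_coprime.2 hM4.symm
    have h2 : 1 ≤ 4 ^ l := Nat.one_le_pow _ _ (by norm_num)
    rw [Nat.cast_sub h2] at h1
    push_cast at h1
    exact h1
  have h4l : (4 : ℤ) ^ l - 1 = (a - 1) * (a + 1) := by
    have : (4 : ℤ) ^ l = a ^ 2 := by
      rw [ha, ← pow_mul, mul_comm l 2, pow_mul]; norm_num
    rw [this]; ring
  have com : IsCoprime (a - 1) N := by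
    rw [h4l] at co4; exact co4.of_mul_left_left
  have cop : IsCoprime (a + 1) N := by
    rw [h4l] at co4; exact co4.of_mul_left_right
  have coD : IsCoprime (a * (a ^ 2 - 1)) N := by
    have : a * (a ^ 2 - 1) = a * ((a - 1) * (a + 1)) := by ring
    rw [this]; exact coa.mul_left (com.mul_left cop)
  obtain ⟨u, w, huw⟩ := coD
  have hν : ∀ j : ℕ, N ∣ a * (a ^ 2 - 1) * (u * (n + j)) - ((n : ℤ) + j) := by
    intro j
    refine ⟨-(w * (n + j)), ?_⟩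
    have : a * (a ^ 2 - 1) * (u * (n + j)) - ((n : ℤ) + j) =
      (u * (a * (a ^ 2 - 1)) + w * N - 1) * (n + j) - w * N * (n + j) := by ring
    rw [this, huw]; ring
  let P : Par := ⟨N, a, g, n, r, fun j => u * (n + j), hg0, hgN, hrN, hrg, by linarith,
    co2, co3, coa, com, cop, hν, hroom⟩
  have hn1 : 1 ≤ n := by
    have : (1 : ℤ) ≤ n := by linarith
    exact_mod_cast this
  have hQ := Q_ge_of_par P hn1 rfl
  change N - (8 * r * g + r * (640 * g + 8 * r * g)) ≤ Q n at hQ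
  have hr0 : (0 : ℤ) ≤ r := by positivity
  have hr7 : (r : ℤ) ≤ 7 * l := by linarith
  have h1 : (n : ℤ) - Q n ≤ (648 * r + 8 * r ^ 2) * g := by nlinarith
  have h2 : (648 * (r : ℤ) + 8 * r ^ 2) ≤ 805 * l ^ 2 := by nlinarith
  have h3 : (0 : ℤ) ≤ 648 * r + 8 * r ^ 2 := by positivity
  calc ((n : ℤ) - Q n) * a ≤ ((648 * r + 8 * r ^ 2) * g) * a :=
        mul_le_mul_of_nonneg_right h1 ha0.le
    _ = (648 * r + 8 * r ^ 2) * (g * a) := by ring
    _ ≤ (805 * l ^ 2) * (6 * n) := mul_le_mul h2 hga (by positivity) (by positivity)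
    _ ≤ 5000 * l ^ 2 * n := by
        have : (0 : ℤ) ≤ l ^ 2 * n := by positivity
        nlinarith

lemma two_pow_ge {m : ℕ} (hm : 10 ≤ m) : 108 * m + 68 ≤ 2 * 2 ^ m := by
  induction m, hm using Nat.le_induction with
  | base => norm_num
  | succ k hk ih => rw [pow_succ]; omega

lemma poly_exp : ∃ m0 : ℕ, ∀ m : ℕ, m0 ≤ m → (20000 * m ^ 2) ^ 16 * 2 ^ (13 * m + 13) ≤ 2 ^ (16 * m) := by
  have h := tendsto_pow_const_div_const_pow_of_one_lt 32 (r := (8 : ℝ)) (by norm_num)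
  have h2 := (h.eventually (gt_mem_nhds (show (0 : ℝ) < 1 / (20000 ^ 16 * 2 ^ 13) by positivity)))
  obtain ⟨m0, hm0⟩ := Filter.eventually_atTop.1 h2
  refine ⟨m0, ?_⟩
  intro m hm
  have h3 := hm0 m hm
  rw [div_lt_div_iff₀ (by positivity) (by positivity)] at h3
  have h4 : (20000 : ℝ) ^ 16 * 2 ^ 13 * m ^ 32 ≤ 8 ^ m := by linarith
  have h5 : (20000 : ℕ) ^ 16 * 2 ^ 13 * m ^ 32 ≤ 8 ^ m := by exact_mod_cast h4
  have e1 : (20000 * m ^ 2) ^ 16 * 2 ^ (13 * m + 13) =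
      (20000 ^ 16 * 2 ^ 13 * m ^ 32) * 2 ^ (13 * m) := by
    rw [pow_add, mul_pow, ← pow_mul]; ring
  have e2 : 2 ^ (16 * m) = 8 ^ m * 2 ^ (13 * m) := by
    rw [show (8 : ℕ) = 2 ^ 3 by norm_num, ← pow_mul, ← pow_add]; ring_nf
  rw [e1, e2]
  exact Nat.mul_le_mul_right _ h5

/-- main theorem: `Q n ≥ n - n ^ (15 / 16)` for all large `n` -/
theorem Q_asymptotic : ∃ n0 : ℕ, ∀ n ≥ n0, Q n ≤ n ∧ (n - Q n) ^ 16 ≤ n ^ 15 := by
  obtain ⟨m0, hm0⟩ := poly_exp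
  refine ⟨2 ^ (13 * (max m0 11) + 13), ?_⟩
  intro n hn
  have hn0 : n ≠ 0 := by
    rintro rfl
    have : 0 < 2 ^ (13 * (max m0 11) + 13) := by positivity
    omega
  have hn1 : 1 ≤ n := Nat.one_le_iff_ne_zero.2 hn0
  have hQn := Q_le hn1
  refine ⟨hQn, ?_⟩
  set m := Nat.log 2 n / 13 with hm
  have hlog : 13 * (max m0 11) + 13 ≤ Nat.log 2 n := by
    exact (Nat.le_log_iff_pow_le (by norm_num) hn0).2 hn
  have hmge : max m0 11 ≤ m := by omega
  have hm1 : m0 ≤ m := le_trans (le_max_left _ _) hmge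
  have hm2 : 11 ≤ m := le_trans (le_max_right _ _) hmge
  have hlow : 2 ^ (13 * m) ≤ n := by
    calc 2 ^ (13 * m) ≤ 2 ^ (Nat.log 2 n) := Nat.pow_le_pow_right (by norm_num) (by omega)
      _ ≤ n := Nat.pow_log_le_self 2 hn0
  have hhigh : n ≤ 2 ^ (13 * m + 13) := by
    have h1 : n < 2 ^ (Nat.log 2 n + 1) := Nat.lt_pow_succ_log_self (by norm_num) n
    have h2 : 2 ^ (Nat.log 2 n + 1) ≤ 2 ^ (13 * m + 13) :=
      Nat.pow_le_pow_right (by norm_num) (by omega)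
    omega
  obtain ⟨l, hl, hl1, hl2⟩ := Nat.exists_prime_lt_and_le_two_mul m (by omega)
  have hcond : (54 * l + 68) * 2 ^ (6 * l) ≤ 2 * n := by
    calc (54 * l + 68) * 2 ^ (6 * l) ≤ (108 * m + 68) * 2 ^ (12 * m) :=
          Nat.mul_le_mul (by omega) (Nat.pow_le_pow_right (by norm_num) (by omega))
      _ ≤ (2 * 2 ^ m) * 2 ^ (12 * m) := Nat.mul_le_mul_right _ (two_pow_ge (by omega))
      _ = 2 * 2 ^ (13 * m) := by rw [mul_assoc, ← pow_add]; ring_nf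
      _ ≤ 2 * n := Nat.mul_le_mul_left _ hlow
  have hcore := core hl (by omega) hcond
  set E := n - Q n with hE
  have hE' : ((n : ℤ) - Q n) = E := by omega
  rw [hE'] at hcore
  have hcore' : E * 2 ^ l ≤ 5000 * l ^ 2 * n := by exact_mod_cast hcore
  have h1 : E * 2 ^ m ≤ 20000 * m ^ 2 * n := by
    calc E * 2 ^ m ≤ E * 2 ^ l := Nat.mul_le_mul_left _ (Nat.pow_le_pow_right (by norm_num) hl1.le)
      _ ≤ 5000 * l ^ 2 * n := hcore'
      _ ≤ 5000 * (2 * m) ^ 2 * n :=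
          Nat.mul_le_mul_right _ (Nat.mul_le_mul_left _ (Nat.pow_le_pow_left hl2 2))
      _ = 20000 * m ^ 2 * n := by ring
  have h2 : E ^ 16 * 2 ^ (16 * m) ≤ n ^ 15 * 2 ^ (16 * m) := by
    calc E ^ 16 * 2 ^ (16 * m) = (E * 2 ^ m) ^ 16 := by
          rw [mul_pow, ← pow_mul, mul_comm m 16]
      _ ≤ (20000 * m ^ 2 * n) ^ 16 := Nat.pow_le_pow_left h1 16
      _ = n ^ 15 * ((20000 * m ^ 2) ^ 16 * n) := by ring
      _ ≤ n ^ 15 * ((20000 * m ^ 2) ^ 16 * 2 ^ (13 * m + 13)) :=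
          Nat.mul_le_mul_left _ (Nat.mul_le_mul_left _ hhigh)
      _ ≤ n ^ 15 * 2 ^ (16 * m) := Nat.mul_le_mul_left _ (hm0 m hm1)
  exact Nat.le_of_mul_le_mul_right h2 (by positivity)

/-- the same in real exponents -/
theorem Q_real : ∃ n0 : ℕ, ∀ n ≥ n0,
    (n : ℝ) - (n : ℝ) ^ (15 / 16 : ℝ) ≤ Q n ∧ Q n ≤ n := by
  obtain ⟨n0, h⟩ := Q_asymptotic
  refine ⟨n0, ?_⟩
  intro n hn
  obtain ⟨h1, h2⟩ := h n hn
  refine ⟨?_, h1⟩
  have h3 : (((n - Q n : ℕ) : ℝ)) ^ 16 ≤ ((n : ℝ) ^ (15 / 16 : ℝ)) ^ 16 := by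
    have e : ((n : ℝ) ^ (15 / 16 : ℝ)) ^ 16 = (n : ℝ) ^ 15 := by
      rw [← Real.rpow_natCast, ← Real.rpow_mul (by positivity), ← Real.rpow_natCast]
      norm_num
    rw [e]
    exact_mod_cast h2
  have h4 : ((n - Q n : ℕ) : ℝ) ≤ (n : ℝ) ^ (15 / 16 : ℝ) :=
    (pow_le_pow_iff_left₀ (by positivity) (by positivity) (by norm_num)).1 h3
  rw [Nat.cast_sub h1] at h4
  linarith

end H58.QN
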